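import Pool.Agent.H26.CH.Quad

/-!
# The case `τ = 0`
-/

set_option autoImplicit false

namespace Pool.Agent.H26.CH

open Module

variable {n : ℕ} {M : Type*} [AddCommGroup M] [Module ℂ M]

section zero

variable {ρ : FreeGroup (Fin n) →* End ℂ M} {δ : ℂ}

theorem Z0_B {j : Fin n} {z : M} (hz : z ∈ Zs ρ 0 δ j) {w : FreeGroup (Fin n)} (hw : w ∈ Hs j) :
    ρ (FreeGroup.of j) (ρ w z) = ρ w⁻¹ (ρ (FreeGroup.of j) z) := by
  rw [Zs_B hz hw, zero_smul, add_zero]

theorem Z0_comm {j : Fin n} {z : M} (hz : z ∈ Zs ρ 0 δ j) {u w : FreeGroup (Fin n)}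
    (hu : u ∈ Hs j) (hw : w ∈ Hs j) : ρ u (ρ w z) = ρ w (ρ u z) := by
  have h1 := Z0_B (Zs_stable hw hz) hu
  rw [Z0_B hz hw] at h1
  -- `x u w z = u⁻¹ w⁻¹ x z`
  have h2 := Z0_B hz ((Hs j).mul_mem hw hu)
  rw [mul_inv_rev, mul_app, mul_app, ← h1] at h2
  have h3 := congrArg (ρ (FreeGroup.of j)⁻¹) h2
  rw [inv_app, inv_app] at h3
  exact h3.symm

theorem Z0_sq {j : Fin n} {z : M} (hz : z ∈ Zs ρ 0 δ j) :
    ρ (FreeGroup.of j) (ρ (FreeGroup.of j) z) = - (δ • z) := by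
  have := hz 1 (one_mem _) 1 (one_mem _)
  rw [one_mul, mul_one, zero_smul, sub_zero] at this
  exact eq_neg_of_add_eq_zero_left this

/-- `x_a² y = y` for every letter -/
theorem Good.sq_letter {S : Finset (Fin n)} (hS : S.card + 3 ≤ n) {y : M}
    (h : Good ρ 0 δ S y) (a : Fin n) :
    ρ (FreeGroup.of a) (ρ (FreeGroup.of a) y) = y := by
  obtain ⟨j, hj, hja, -⟩ := off2 hS a a
  obtain ⟨m, hm, hma, hmj⟩ := off2 hS a j
  have hZj := h.mem_Zs hj
  have hZm := h.mem_Zs hm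
  have haj : FreeGroup.of a ∈ Hs j := of_mem_Hs hja.symm
  have ham : FreeGroup.of a ∈ Hs m := of_mem_Hs hma.symm
  have hjm : FreeGroup.of j ∈ Hs m := of_mem_Hs hmj.symm
  have e1 := Z0_B hZj haj
  -- `x_a x_j x_a y = x_j y`
  have e2 := congrArg (ρ (FreeGroup.of a)) e1
  rw [inv_app'] at e2
  rw [Z0_comm (Zs_stable ham hZm) ham hjm] at e2
  have e3 := congrArg (ρ (FreeGroup.of j)⁻¹) e2
  rw [inv_app, inv_app] at e3
  exact e3

/-- the part of `Zs` on which the letters are involutions -/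
def Ds (ρ : FreeGroup (Fin n) →* End ℂ M) (δ : ℂ) (m : Fin n) : Submodule ℂ M where
  carrier := {z | z ∈ Zs ρ 0 δ m ∧ ∀ a, ρ (FreeGroup.of a) (ρ (FreeGroup.of a) z) = z}
  add_mem' := by
    intro a b ha hb
    refine ⟨(Zs ρ 0 δ m).add_mem ha.1 hb.1, ?_⟩
    intro c
    rw [map_add, map_add, ha.2, hb.2]
  zero_mem' := ⟨(Zs ρ 0 δ m).zero_mem, fun a => by simp⟩
  smul_mem' := by
    intro c a ha
    refine ⟨(Zs ρ 0 δ m).smul_mem c ha.1, ?_⟩
    intro b
    rw [map_smul, map_smul, ha.2]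

theorem Ds_inv {m : Fin n} {z : M} (hz : z ∈ Ds ρ δ m) (a : Fin n) :
    ρ (FreeGroup.of a)⁻¹ z = ρ (FreeGroup.of a) z := by
  have := congrArg (ρ (FreeGroup.of a)⁻¹) (hz.2 a)
  rw [inv_app] at this
  exact this.symm

theorem Ds_stable {m : Fin n} {z : M} (hz : z ∈ Ds ρ δ m) {h : FreeGroup (Fin n)}
    (hh : h ∈ Hs m) : ρ h z ∈ Ds ρ δ m := by
  refine ⟨Zs_stable hh hz.1, ?_⟩
  intro a
  by_cases ham : a = m
  · subst ham
    have e1 := Z0_sq hz.1
    have e2 := Z0_sq (Zs_stable hh hz.1)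
    rw [hz.2 a] at e1
    rw [e2]
    rw [← map_smul, ← map_neg, ← e1]
  · have ha : FreeGroup.of a ∈ Hs m := of_mem_Hs ham
    rw [Z0_comm hz.1 ha hh, Z0_comm (Zs_stable ha hz.1) ha hh, hz.2]

theorem Ds_xm {m : Fin n} {z : M} (hz : z ∈ Ds ρ δ m) (a : Fin n) :
    ρ (FreeGroup.of a) (ρ (FreeGroup.of m) z) = ρ (FreeGroup.of m) (ρ (FreeGroup.of a) z) := by
  by_cases ham : a = m
  · rw [ham]
  · have ha : FreeGroup.of a ∈ Hs m := of_mem_Hs ham
    have := Z0_B hz.1 ((Hs m).inv_mem ha)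
    rw [inv_inv, Ds_inv hz a] at this
    exact this.symm

theorem Ds_comm {m : Fin n} {z : M} (hz : z ∈ Ds ρ δ m) (a b : Fin n) :
    ρ (FreeGroup.of a) (ρ (FreeGroup.of b) z) = ρ (FreeGroup.of b) (ρ (FreeGroup.of a) z) := by
  by_cases ham : a = m
  · subst ham
    exact (Ds_xm hz b).symm
  · by_cases hbm : b = m
    · subst hbm
      exact Ds_xm hz a
    · exact Z0_comm hz.1 (of_mem_Hs ham) (of_mem_Hs hbm)

/-- the span of the orbit -/
def Ws (ρ : FreeGroup (Fin n) →* End ℂ M) (δ : ℂ) (m : Fin n) : Submodule ℂ M :=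
  Ds ρ δ m ⊔ (Ds ρ δ m).map (ρ (FreeGroup.of m))

theorem Ws_sq {m : Fin n} {v : M} (hv : v ∈ Ws ρ δ m) (a : Fin n) :
    ρ (FreeGroup.of a) (ρ (FreeGroup.of a) v) = v := by
  obtain ⟨z, hz, _, ⟨z', hz', rfl⟩, rfl⟩ := Submodule.mem_sup.mp hv
  rw [map_add, map_add, hz.2]
  congr 1
  by_cases ham : a = m
  · subst ham
    rw [hz'.2]
  · rw [Ds_xm hz', Ds_xm (Ds_stable hz' (of_mem_Hs ham)), hz'.2]

theorem Ws_comm {m : Fin n} {v : M} (hv : v ∈ Ws ρ δ m) (a b : Fin n) :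
    ρ (FreeGroup.of a) (ρ (FreeGroup.of b) v) = ρ (FreeGroup.of b) (ρ (FreeGroup.of a) v) := by
  obtain ⟨z, hz, _, ⟨z', hz', rfl⟩, rfl⟩ := Submodule.mem_sup.mp hv
  rw [map_add, map_add, map_add, map_add, Ds_comm hz]
  congr 1
  by_cases ham : a = m
  · subst ham
    by_cases hbm : b = a
    · rw [hbm]
    · rw [hz'.2, Ds_xm hz', (Ds_stable hz' (of_mem_Hs hbm)).2]
  · by_cases hbm : b = m
    · subst hbm
      rw [hz'.2, Ds_xm hz', (Ds_stable hz' (of_mem_Hs ham)).2]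
    · rw [Ds_xm hz', Ds_xm hz', Ds_xm (Ds_stable hz' (of_mem_Hs hbm)),
        Ds_xm (Ds_stable hz' (of_mem_Hs ham)), Ds_comm hz']

theorem Ws_letter {m : Fin n} {v : M} (hv : v ∈ Ws ρ δ m) (a : Fin n) :
    ρ (FreeGroup.of a) v ∈ Ws ρ δ m := by
  obtain ⟨z, hz, _, ⟨z', hz', rfl⟩, rfl⟩ := Submodule.mem_sup.mp hv
  rw [map_add]
  by_cases ham : a = m
  · subst ham
    rw [hz'.2, add_comm]
    exact Submodule.add_mem_sup hz' ⟨z, hz, rfl⟩
  · rw [Ds_xm hz']
    exact Submodule.add_mem_sup (Ds_stable hz (of_mem_Hs ham))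
      ⟨_, Ds_stable hz' (of_mem_Hs ham), rfl⟩

theorem Ws_stable {m : Fin n} (w : FreeGroup (Fin n)) :
    ∀ v ∈ Ws ρ δ m, ρ w v ∈ Ws ρ δ m := by
  induction w using FreeGroup.induction_on with
  | C1 => intro v hv; rw [map_one]; exact hv
  | of a => intro v hv; exact Ws_letter hv a
  | inv_of a ha =>
    intro v hv
    have := Ws_letter hv a
    have h2 := congrArg (ρ (FreeGroup.of a)⁻¹) (Ws_sq hv a)
    rw [inv_app] at h2
    rw [← h2]; exact this
  | mul x y hx hy => intro v hv; rw [mul_app]; exact hx _ (hy _ hv)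

theorem Ws_comm1 {m : Fin n} (a : Fin n) (w : FreeGroup (Fin n)) :
    ∀ v ∈ Ws ρ δ m, ρ (FreeGroup.of a) (ρ w v) = ρ w (ρ (FreeGroup.of a) v) := by
  induction w using FreeGroup.induction_on with
  | C1 => intro v hv; rw [map_one]; rfl
  | of b => intro v hv; exact Ws_comm hv a b
  | inv_of b hb =>
    intro v hv
    have h1 := Ws_comm (Ws_stable (FreeGroup.of b)⁻¹ v hv) a b
    rw [inv_app'] at h1
    have h2 := congrArg (ρ (FreeGroup.of b)⁻¹) h1
    rw [inv_app] at h2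
    exact h2.symm
  | mul x y hx hy =>
    intro v hv
    rw [mul_app, mul_app, hx _ (Ws_stable y v hv), hy v hv]

theorem Ws_comm2 {m : Fin n} (u w : FreeGroup (Fin n)) :
    ∀ v ∈ Ws ρ δ m, ρ u (ρ w v) = ρ w (ρ u v) := by
  induction u using FreeGroup.induction_on with
  | C1 => intro v hv; rw [map_one]; rfl
  | of b => intro v hv; exact Ws_comm1 b w v hv
  | inv_of b hb =>
    intro v hv
    have h1 := Ws_comm1 b w _ (Ws_stable (FreeGroup.of b)⁻¹ v hv)
    rw [inv_app'] at h1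
    have h2 := congrArg (ρ (FreeGroup.of b)⁻¹) h1
    rw [inv_app] at h2
    exact h2.symm
  | mul x y hx hy =>
    intro v hv
    rw [mul_app, mul_app, hy v hv, hx _ (Ws_stable y v hv)]

theorem Ws_sq2 {m : Fin n} (u : FreeGroup (Fin n)) :
    ∀ v ∈ Ws ρ δ m, ρ u (ρ u v) = v := by
  induction u using FreeGroup.induction_on with
  | C1 => intro v hv; rw [map_one]; rfl
  | of b => intro v hv; exact Ws_sq hv b
  | inv_of b hb =>
    intro v hv
    have h1 := Ws_sq (Ws_stable (FreeGroup.of b)⁻¹ _ (Ws_stable (FreeGroup.of b)⁻¹ v hv)) b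
    rw [inv_app', inv_app'] at h1
    exact h1.symm
  | mul x y hx hy =>
    intro v hv
    rw [mul_app, mul_app, Ws_comm2 y x _ (Ws_stable y v hv), hx _ (Ws_stable y _ (Ws_stable y v hv)),
      hy v hv]

/-- the normal subgroup generated by the squares -/
def Nsq (n : ℕ) : Subgroup (FreeGroup (Fin n)) :=
  Subgroup.normalClosure {g | ∃ h, g = h * h}

theorem Nsq_le (K : Subgroup (FreeGroup (Fin n))) [K.Normal] (h : ∀ g, g * g ∈ K) :
    Nsq n ≤ K := by
  apply Subgroup.normalClosure_le_normal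
  rintro _ ⟨g, rfl⟩
  exact h g

instance : (Nsq n).Normal := Subgroup.normalClosure_normal

/-- `I_N y = 0` when `τ = 0` -/
theorem Good.nsq {S : Finset (Fin n)} (hS : S.card + 3 ≤ n) {y : M} (h : Good ρ 0 δ S y)
    (w : FreeGroup (Fin n)) (hw : w ∈ Nsq n) : Nn ρ w y = 0 := by
  obtain ⟨m, hm⟩ := exists_off S (by omega)
  have hy : y ∈ Ws ρ δ m := by
    have : y ∈ Ds ρ δ m := ⟨h.mem_Zs hm, fun a => h.sq_letter hS a⟩
    exact Submodule.mem_sup_left this
  let K : Subgroup (FreeGroup (Fin n)) :=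
    { carrier := {g | ∀ v ∈ Ws ρ δ m, ρ g v = v}
      mul_mem' := by
        intro a b ha hb v hv
        rw [mul_app, hb v hv, ha v hv]
      one_mem' := by
        intro v hv
        rw [map_one]; rfl
      inv_mem' := by
        intro a ha v hv
        have h1 := congrArg (ρ a⁻¹) (ha v hv)
        rw [inv_app] at h1
        exact h1.symm }
  have hK : K.Normal := by
    constructor
    intro a ha g v hv
    rw [mul_app, mul_app, ha _ (Ws_stable g⁻¹ v hv), inv_app']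
  have hle : Nsq n ≤ K := Nsq_le K (fun g v hv => by rw [mul_app]; exact Ws_sq2 g v hv)
  have := hle hw y hy
  rw [Nn, this, sub_self]

end zero

end Pool.Agent.H26.CH
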