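import Pool.Agent.H26.CH.Nest
import Pool.Agent.H26.CH.Quad0

/-!
# Representations all of whose large Jordan multiplicities are those of a quadratic polynomial
-/

set_option autoImplicit false

namespace Pool.Agent.H26.CH

open Module Polynomial

variable {n : ℕ} {V : Type*} [AddCommGroup V] [Module ℂ V]

theorem finrank_range_conj (g g' a : End ℂ V) (_ : g * g' = 1) (h2 : g' * g = 1) :
    finrank ℂ (LinearMap.range (g * a * g')) = finrank ℂ (LinearMap.range a) := by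
  have e : LinearMap.range (g * a * g') = (LinearMap.range a).map g := by
    ext v
    constructor
    · rintro ⟨u, rfl⟩
      exact ⟨a (g' u), ⟨g' u, rfl⟩, rfl⟩
    · rintro ⟨_, ⟨u, rfl⟩, rfl⟩
      refine ⟨g u, ?_⟩
      have : g' (g u) = u := DFunLike.congr_fun h2 u
      simp only [Module.End.mul_apply, this]
  rw [e]
  have hinj : Function.Injective g := Function.LeftInverse.injective
    (g := g') (fun x => DFunLike.congr_fun h2 x)
  exact (Submodule.equivMapOfInjective g hinj (LinearMap.range a)).finrank_eq.symm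

theorem conj_pow (g g' a : End ℂ V) (h1 : g * g' = 1) (h2 : g' * g = 1) (i : ℕ) :
    (g * a * g') ^ i = g * a ^ i * g' := by
  induction i with
  | zero => rw [pow_zero, pow_zero, mul_one, h1]
  | succ i ih =>
    rw [pow_succ, ih, pow_succ]
    calc g * a ^ i * g' * (g * a * g') = g * a ^ i * (g' * g) * a * g' := by
          simp only [mul_assoc]
      _ = g * (a ^ i * a) * g' := by rw [h2, mul_one]; simp only [mul_assoc]

theorem BlockCond.conj {f : End ℂ V} {q : ℂ[X]} {b : ℕ} (h : BlockCond f q b)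
    (g g' : End ℂ V) (h1 : g * g' = 1) (h2 : g' * g = 1) : BlockCond (g * f * g') q b := by
  intro ν i hi
  have e : g * f * g' - ν • (1 : End ℂ V) = g * (f - ν • 1) * g' := by
    rw [mul_sub, sub_mul, mul_smul_comm, mul_one, smul_mul_assoc, h1]
  rw [e, conj_pow g g' _ h1 h2, conj_pow g g' _ h1 h2, conj_pow g g' _ h1 h2,
    finrank_range_conj g g' _ h1 h2, finrank_range_conj g g' _ h1 h2,
    finrank_range_conj g g' _ h1 h2]
  exact h ν i hi

theorem aeval_conj (g g' a : End ℂ V) (h1 : g * g' = 1) (h2 : g' * g = 1) (q : ℂ[X]) :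
    aeval (g * a * g') q = g * aeval a q * g' := by
  induction q using Polynomial.induction_on' with
  | add p q hp hq => rw [map_add, map_add, hp, hq, mul_add, add_mul]
  | monomial m c =>
    rw [aeval_monomial, aeval_monomial, conj_pow g g' a h1 h2, Algebra.algebraMap_eq_smul_one]
    simp only [smul_mul_assoc, mul_smul_comm, one_mul]

/-- precomposition with an automorphism -/
def tw (r : FreeGroup (Fin n) →* End ℂ V) (ψ : MulAut (FreeGroup (Fin n))) :
    FreeGroup (Fin n) →* End ℂ V := r.comp ψ.toMonoidHom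

theorem tw_apply (r : FreeGroup (Fin n) →* End ℂ V) (ψ : MulAut (FreeGroup (Fin n)))
    (w : FreeGroup (Fin n)) : tw r ψ w = r (ψ w) := rfl

theorem Char.tw {r : FreeGroup (Fin n) →* End ℂ V} (h : Char r)
    (ψ : MulAut (FreeGroup (Fin n))) : Char (tw r ψ) := by
  intro σ
  obtain ⟨g, g', h1, h2, h3⟩ := h (ψ * σ * ψ⁻¹)
  refine ⟨g, g', h1, h2, ?_⟩
  intro w
  have := h3 (ψ w)
  rw [MulAut.mul_apply, MulAut.mul_apply, MulAut.inv_apply_self] at this
  exact this

theorem BlockCond.tw {r : FreeGroup (Fin n) →* End ℂ V} (h : Char r) {q : ℂ[X]} {b : ℕ}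
    {j : Fin n} (hb : BlockCond (r (FreeGroup.of j)) q b) (ψ : MulAut (FreeGroup (Fin n))) :
    BlockCond (tw r ψ (FreeGroup.of j)) q b := by
  obtain ⟨g, g', h1, h2, h3⟩ := h ψ
  rw [tw_apply, h3]
  exact hb.conj g g' h1 h2

/-- `Q_j (r(x_l) - 1) Q_k = 0` -/
theorem lemma1 [FiniteDimensional ℂ V] (r : FreeGroup (Fin n) →* End ℂ V) (hr : Char r)
    (q : ℂ[X]) (hq : q ≠ 0) (b : ℕ) (hn : 5 ≤ n) (hbn : b * b + 4 ≤ n)
    (hb : ∀ j, BlockCond (r (FreeGroup.of j)) q b) (j k l : Fin n) (hjk : j ≠ k) (hlj : l ≠ j) :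
    aeval (r (FreeGroup.of j)) q * (r (FreeGroup.of l) - 1) * aeval (r (FreeGroup.of k)) q = 0 := by
  obtain ⟨s, hs⟩ := exists_off ({j, k, l} : Finset (Fin n))
    (lt_of_le_of_lt Finset.card_le_three (by omega))
  simp only [Finset.mem_insert, Finset.mem_singleton, not_or] at hs
  have hsj : FreeGroup.of s ∈ Hs j := of_mem_Hs hs.1
  let ψ := trv j (FreeGroup.of s) (FreeGroup.of s)⁻¹ hsj ((Hs j).inv_mem hsj)
  have hψj : ψ (FreeGroup.of j) = FreeGroup.of s * FreeGroup.of j * (FreeGroup.of s)⁻¹ :=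
    trv_self _ _ _ _ _
  have hψ : ∀ i, i ≠ j → ψ (FreeGroup.of i) = FreeGroup.of i := fun i hi => trv_ne hi _ _ _ _
  have key := nest (tw r ψ) (hr.tw ψ) q hq b hn hbn j k (BlockCond.tw hr (hb j) ψ)
    (BlockCond.tw hr (hb k) ψ) s l hs.1 hs.2.1 (Ne.symm hs.2.2) (FreeGroup.of s)
  rw [Rt_self (Ne.symm hs.2.2), map_mul, tw_apply, tw_apply, tw_apply, tw_apply, hψj,
    hψ k hjk.symm, hψ s hs.1, hψ l hlj, map_mul, map_mul] at key
  have e1 : r (FreeGroup.of s) * r (FreeGroup.of s)⁻¹ = 1 := by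
    rw [← map_mul, mul_inv_cancel, map_one]
  have e2 : r (FreeGroup.of s)⁻¹ * r (FreeGroup.of s) = 1 := by
    rw [← map_mul, inv_mul_cancel, map_one]
  rw [aeval_conj _ _ _ e1 e2] at key
  set Qj := aeval (r (FreeGroup.of j)) q
  set Qk := aeval (r (FreeGroup.of k)) q
  set S := r (FreeGroup.of s)
  set S' := r (FreeGroup.of s)⁻¹
  set L := r (FreeGroup.of l)
  have e3 : S * (Qj * L * Qk) = S * (Qj * Qk) := by
    calc S * (Qj * L * Qk) = S * Qj * (S' * S) * L * Qk := by rw [e2]; simp only [mul_assoc, one_mul]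
      _ = S * Qj * S' * (S * L) * Qk := by simp only [mul_assoc]
      _ = S * Qj * S' * S * Qk := key
      _ = S * Qj * (S' * S) * Qk := by simp only [mul_assoc]
      _ = S * (Qj * Qk) := by rw [e2]; simp only [mul_assoc, one_mul]
  have e4 : Qj * L * Qk = Qj * Qk := by
    calc Qj * L * Qk = (S' * S) * (Qj * L * Qk) := by rw [e2, one_mul]
      _ = S' * (S * (Qj * L * Qk)) := by simp only [mul_assoc]
      _ = S' * (S * (Qj * Qk)) := by rw [e3]
      _ = (S' * S) * (Qj * Qk) := by simp only [mul_assoc]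
      _ = Qj * Qk := by rw [e2, one_mul]
  rw [mul_sub, sub_mul, mul_one, e4, sub_self]

/-- left multiplication -/
def rhoL (r : FreeGroup (Fin n) →* End ℂ V) : FreeGroup (Fin n) →* End ℂ (End ℂ V) where
  toFun w := LinearMap.mulLeft ℂ (r w)
  map_one' := by rw [map_one]; ext; simp
  map_mul' := by intro a b; rw [map_mul]; ext; simp

/-- right multiplication -/
def rhoR (r : FreeGroup (Fin n) →* End ℂ V) : FreeGroup (Fin n) →* End ℂ (End ℂ V) where
  toFun w := LinearMap.mulRight ℂ (r w⁻¹)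
  map_one' := by rw [inv_one, map_one]; ext; simp
  map_mul' := by intro a b; rw [mul_inv_rev, map_mul]; ext; simp

theorem rhoL_apply (r : FreeGroup (Fin n) →* End ℂ V) (w : FreeGroup (Fin n)) (a : End ℂ V) :
    rhoL r w a = r w * a := rfl

theorem rhoR_apply (r : FreeGroup (Fin n) →* End ℂ V) (w : FreeGroup (Fin n)) (a : End ℂ V) :
    rhoR r w a = a * r w⁻¹ := rfl

theorem Nn_rhoL (r : FreeGroup (Fin n) →* End ℂ V) (w : FreeGroup (Fin n)) (a : End ℂ V) :
    Nn (rhoL r) w a = (r w - 1) * a := by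
  rw [Nn, rhoL_apply, sub_mul, one_mul]

theorem Nn_rhoR (r : FreeGroup (Fin n) →* End ℂ V) (w : FreeGroup (Fin n)) (a : End ℂ V) :
    Nn (rhoR r) w a = a * (r w⁻¹ - 1) := by
  rw [Nn, rhoR_apply, mul_sub, mul_one]

/-- `t² - τ t + δ` -/
noncomputable def qp (τ δ : ℂ) : ℂ[X] := X ^ 2 - C τ * X + C δ

theorem aeval_qp (τ δ : ℂ) (f : End ℂ V) : aeval f (qp τ δ) = f * f - τ • f + δ • 1 := by
  rw [qp, map_add, map_sub, map_pow, map_mul, aeval_X, aeval_C, aeval_C,
    Algebra.algebraMap_eq_smul_one, Algebra.algebraMap_eq_smul_one, smul_mul_assoc, one_mul, pow_two]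

theorem qp_ne (τ δ : ℂ) : qp τ δ ≠ 0 := by
  have : (qp τ δ).Monic := by
    unfold qp
    monicity!
  exact this.ne_zero

theorem goodL [FiniteDimensional ℂ V] (r : FreeGroup (Fin n) →* End ℂ V) (hr : Char r)
    (τ δ : ℂ) (b : ℕ) (hn : 5 ≤ n) (hbn : b * b + 4 ≤ n)
    (hb : ∀ j, BlockCond (r (FreeGroup.of j)) (qp τ δ) b) (k l : Fin n) :
    Good (rhoL r) τ δ {k, l} ((r (FreeGroup.of l) - 1) * aeval (r (FreeGroup.of k)) (qp τ δ)) := by
  intro ψ hψS j hj
  simp only [Finset.mem_insert, Finset.mem_singleton, not_or] at hj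
  obtain ⟨hjk, hjl⟩ := hj
  have hψ : Fx k l ψ := ⟨hψS k (by simp), hψS l (by simp)⟩
  have := lemma1 (tw r ψ) (hr.tw ψ) (qp τ δ) (qp_ne τ δ) b hn hbn
    (fun j => BlockCond.tw hr (hb j) ψ) j k l hjk (Ne.symm hjl)
  rw [tw_apply, tw_apply, tw_apply, hψ.1, hψ.2, aeval_qp τ δ (r (ψ (FreeGroup.of j))),
    mul_assoc] at this
  rw [rhoL_apply, rhoL_apply, ← mul_assoc, ← this]
  simp only [add_mul, sub_mul, smul_mul_assoc, one_mul]

/-- the mirrored statement: if `L (r(ψ x_l) - 1) Q(ψ x_k) = 0` for all `ψ` fixing `x_l` ... -/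
theorem goodR (r : FreeGroup (Fin n) →* End ℂ V) (τ δ : ℂ) (hδ : δ ≠ 0) (l : Fin n)
    (R : End ℂ V)
    (h : ∀ ψ : MulAut (FreeGroup (Fin n)), Fx l l ψ → ∀ k, k ≠ l →
      R * aeval (r (ψ (FreeGroup.of k))) (qp τ δ) = 0) :
    Good (rhoR r) (τ / δ) (1 / δ) {l} R := by
  intro ψ hψS j hj
  have hjl : j ≠ l := by simpa using hj
  have hψ : Fx l l ψ := ⟨hψS l (by simp), hψS l (by simp)⟩
  have h1 := h ψ hψ j hjl
  rw [aeval_qp] at h1
  rw [rhoR_apply, rhoR_apply]
  set g := r (ψ (FreeGroup.of j)) with hg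
  set g' := r (ψ (FreeGroup.of j))⁻¹ with hg'
  have e1 : g * g' = 1 := by
    rw [hg, hg', ← map_mul, mul_inv_cancel, map_one]
  have e2 : (R * (g * g - τ • g + δ • 1)) * (g' * g') = 0 := by rw [h1, zero_mul]
  have e3 : (R * (g * g - τ • g + δ • 1)) * (g' * g') =
      R * (g * (g * g') * g') - τ • (R * ((g * g') * g')) + δ • (R * g' * g') := by
    simp only [mul_add, mul_sub, add_mul, sub_mul, mul_smul_comm, smul_mul_assoc, mul_one, mul_assoc]
  rw [e3, e1, mul_one, e1, one_mul, mul_one] at e2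
  have e4 := congrArg (fun x => (1 / δ) • x) e2
  simp only [smul_zero, smul_add, smul_sub, smul_smul] at e4
  rw [one_div_mul_cancel hδ, one_smul] at e4
  have e5 : 1 / δ * τ = τ / δ := by ring
  rw [e5] at e4
  rw [← e4]
  abel

/-- the product of seven is zero when `τ ≠ 0` -/
theorem seven [FiniteDimensional ℂ V] (r : FreeGroup (Fin n) →* End ℂ V) (hr : Char r)
    (τ δ : ℂ) (hτ : τ ≠ 0) (hδ : δ ≠ 0) (b : ℕ) (hn : 5 ≤ n) (hbn : b * b + 4 ≤ n)
    (hb : ∀ j, BlockCond (r (FreeGroup.of j)) (qp τ δ) b) (w1 w2 w3 w4 w5 w6 w7 :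
      FreeGroup (Fin n)) :
    (r w1 - 1) * (r w2 - 1) * (r w3 - 1) * (r w4 - 1) * (r w5 - 1) * (r w6 - 1) * (r w7 - 1)
      = 0 := by
  -- the left cube
  have hL : ∀ (ψ : MulAut (FreeGroup (Fin n))) (k l : Fin n) (u v w : FreeGroup (Fin n)),
      (r u - 1) * ((r v - 1) * ((r w - 1) * ((r (ψ (FreeGroup.of l)) - 1) *
        aeval (r (ψ (FreeGroup.of k))) (qp τ δ)))) = 0 := by
    intro ψ k l u v w
    have h1 := (goodL (tw r ψ) (hr.tw ψ) τ δ b hn hbn (fun j => BlockCond.tw hr (hb j) ψ) k l).cube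
      hτ ((Nat.add_le_add_right Finset.card_le_two 3).trans hn) (ψ⁻¹ u) (ψ⁻¹ v) (ψ⁻¹ w)
    rw [Nn_rhoL, Nn_rhoL, Nn_rhoL] at h1
    simp only [tw_apply, MulAut.apply_inv_self] at h1
    exact h1
  have hR : ∀ (l : Fin n) (u v w u' v' w' : FreeGroup (Fin n)),
      ((r u - 1) * ((r v - 1) * ((r w - 1) * (r (FreeGroup.of l) - 1)))) *
        (r u' - 1) * (r v' - 1) * (r w' - 1) = 0 := by
    intro l u v w u' v' w'
    have h1 := goodR r τ δ hδ l ((r u - 1) * ((r v - 1) * ((r w - 1) * (r (FreeGroup.of l) - 1))))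
      (by
        intro ψ hψ k hkl
        have := hL ψ k l u v w
        rw [hψ.1] at this
        simp only [mul_assoc]
        exact this)
    have h2 := h1.cube (div_ne_zero hτ hδ) (by rw [Finset.card_singleton]; omega) w'⁻¹ v'⁻¹ u'⁻¹
    rw [Nn_rhoR, Nn_rhoR, Nn_rhoR, inv_inv, inv_inv, inv_inv] at h2
    exact h2
  -- the middle factor
  let X : Submodule ℂ (End ℂ V) :=
    { carrier := {m | ∀ u v w, (r u - 1) * ((r v - 1) * ((r w - 1) * m)) = 0}
      add_mem' := by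
        intro a b ha hb u v w
        rw [mul_add, mul_add, mul_add, ha, hb, add_zero]
      zero_mem' := by
        intro u v w
        simp
      smul_mem' := by
        intro c a ha u v w
        rw [mul_smul_comm, mul_smul_comm, mul_smul_comm, ha, smul_zero] }
  have hX : ∀ g, ∀ x ∈ X, rhoL r g x ∈ X := by
    intro g x hx u v w
    rw [rhoL_apply]
    have e : ∀ u, (r u - 1) * r g = r g * (r (g⁻¹ * u * g) - 1) := by
      intro u
      rw [sub_mul, mul_sub, one_mul, mul_one, ← map_mul, ← map_mul]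
      congr 2
      group
    have h1 := hx (g⁻¹ * u * g) (g⁻¹ * v * g) (g⁻¹ * w * g)
    calc (r u - 1) * ((r v - 1) * ((r w - 1) * (r g * x)))
        = (r u - 1) * ((r v - 1) * (((r w - 1) * r g) * x)) := by simp only [mul_assoc]
      _ = (r u - 1) * (((r v - 1) * r g) * ((r (g⁻¹ * w * g) - 1) * x)) := by
          rw [e w]; simp only [mul_assoc]
      _ = ((r u - 1) * r g) * ((r (g⁻¹ * v * g) - 1) * ((r (g⁻¹ * w * g) - 1) * x)) := by
          rw [e v]; simp only [mul_assoc]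
      _ = r g * ((r (g⁻¹ * u * g) - 1) * ((r (g⁻¹ * v * g) - 1) *
            ((r (g⁻¹ * w * g) - 1) * x))) := by
          rw [e u]; simp only [mul_assoc]
      _ = 0 := by rw [h1, mul_zero]
  have hfin : Nn (rhoL r) w4 ((r w5 - 1) * ((r w6 - 1) * (r w7 - 1))) ∈ X := by
    apply Nn_letters X hX
    intro l u v w
    rw [Nn_rhoL]
    have := hR l u v w w5 w6 w7
    simp only [mul_assoc] at this ⊢
    exact this
  have := hfin w1 w2 w3
  rw [Nn_rhoL] at this
  simp only [mul_assoc] at this ⊢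
  exact this

/-- the product of three is zero on the squares when `τ = 0` -/
theorem three [FiniteDimensional ℂ V] (r : FreeGroup (Fin n) →* End ℂ V) (hr : Char r)
    (δ : ℂ) (hδ : δ ≠ 0) (b : ℕ) (hn : 5 ≤ n) (hbn : b * b + 4 ≤ n)
    (hb : ∀ j, BlockCond (r (FreeGroup.of j)) (qp 0 δ) b) (w1 w2 w3 : FreeGroup (Fin n))
    (h1 : w1 ∈ Nsq n) (h3 : w3 ∈ Nsq n) :
    (r w1 - 1) * (r w2 - 1) * (r w3 - 1) = 0 := by
  have hL : ∀ (ψ : MulAut (FreeGroup (Fin n))) (k l : Fin n) (u : FreeGroup (Fin n)),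
      ψ⁻¹ u ∈ Nsq n →
      (r u - 1) * ((r (ψ (FreeGroup.of l)) - 1) *
        aeval (r (ψ (FreeGroup.of k))) (qp 0 δ)) = 0 := by
    intro ψ k l u hu
    have h1 := (goodL (tw r ψ) (hr.tw ψ) 0 δ b hn hbn
      (fun j => BlockCond.tw hr (hb j) ψ) k l).nsq
        ((Nat.add_le_add_right Finset.card_le_two 3).trans hn) (ψ⁻¹ u) hu
    rw [Nn_rhoL] at h1
    simp only [tw_apply, MulAut.apply_inv_self] at h1
    exact h1
  have hchar : ∀ (ψ : MulAut (FreeGroup (Fin n))) (u : FreeGroup (Fin n)), u ∈ Nsq n →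
      ψ u ∈ Nsq n := by
    intro ψ u hu
    have : Nsq n ≤ (Nsq n).comap ψ.toMonoidHom :=
      Nsq_le _ (fun g => by
        rw [Subgroup.mem_comap, map_mul]
        exact Subgroup.subset_normalClosure ⟨_, rfl⟩)
    exact this hu
  have hR : ∀ (l : Fin n) (u u' : FreeGroup (Fin n)), u ∈ Nsq n → u' ∈ Nsq n →
      ((r u - 1) * (r (FreeGroup.of l) - 1)) * (r u' - 1) = 0 := by
    intro l u u' hu hu'
    have h1 := goodR r 0 δ hδ l ((r u - 1) * (r (FreeGroup.of l) - 1))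
      (by
        intro ψ hψ k hkl
        have := hL ψ k l u (hchar _ _ hu)
        rw [hψ.1] at this
        simp only [mul_assoc]
        exact this)
    rw [zero_div] at h1
    have h2 := h1.nsq (by rw [Finset.card_singleton]; omega) u'⁻¹ ((Nsq n).inv_mem hu')
    rw [Nn_rhoR, inv_inv] at h2
    exact h2
  let X : Submodule ℂ (End ℂ V) :=
    { carrier := {m | ∀ u ∈ Nsq n, (r u - 1) * m = 0}
      add_mem' := by
        intro a b ha hb u hu
        rw [mul_add, ha u hu, hb u hu, add_zero]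
      zero_mem' := by
        intro u _
        simp
      smul_mem' := by
        intro c a ha u hu
        rw [mul_smul_comm, ha u hu, smul_zero] }
  have hX : ∀ g, ∀ x ∈ X, rhoL r g x ∈ X := by
    intro g x hx u hu
    rw [rhoL_apply]
    have e : (r u - 1) * r g = r g * (r (g⁻¹ * u * g) - 1) := by
      rw [sub_mul, mul_sub, one_mul, mul_one, ← map_mul, ← map_mul]
      congr 2
      group
    have hu' : g⁻¹ * u * g ∈ Nsq n := by
      have := (inferInstance : (Nsq n).Normal).conj_mem u hu g⁻¹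
      rwa [inv_inv] at this
    rw [← mul_assoc, e, mul_assoc, hx _ hu', mul_zero]
  have hfin : Nn (rhoL r) w2 (r w3 - 1) ∈ X := by
    apply Nn_letters X hX
    intro l u hu
    rw [Nn_rhoL]
    have := hR l u w3 hu h3
    rw [mul_assoc] at this
    exact this
  have := hfin w1 h1
  rw [Nn_rhoL] at this
  rw [mul_assoc]
  exact this

/-- the case `b = 0`: the polynomial kills the type -/
theorem aeval_eq_zero [FiniteDimensional ℂ V] (f : End ℂ V) (q : ℂ[X]) (hq : q ≠ 0)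
    (hb : BlockCond f q 0) : aeval f q = 0 := by
  by_contra hne
  have hr : ¬ LinearMap.range (aeval f q) ≤ ⊥ := by
    intro h
    exact hne (LinearMap.range_eq_bot.mp (le_bot_iff.mp h))
  obtain ⟨Y, -, -, h2, -, h4⟩ := step f q hq 0 hb ⊥
    (by
      intro g _ v hv
      rw [Submodule.mem_bot] at hv
      rw [hv, map_zero]; exact Submodule.zero_mem _) bot_le hr
  apply h2
  rw [finrank_bot, add_zero] at h4
  have : finrank ℂ Y = 0 := by omega
  rw [Submodule.finrank_eq_zero] at this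
  rw [this]

theorem good0 [FiniteDimensional ℂ V] (r : FreeGroup (Fin n) →* End ℂ V) (hr : Char r)
    (τ δ : ℂ) (hb : ∀ j, BlockCond (r (FreeGroup.of j)) (qp τ δ) 0) :
    Good (rhoL r) τ δ ∅ (1 : End ℂ V) := by
  intro ψ _ j _
  have h1 := aeval_eq_zero _ _ (qp_ne τ δ) (BlockCond.tw hr (hb j) ψ)
  rw [tw_apply, aeval_qp] at h1
  rw [rhoL_apply, rhoL_apply, mul_one]
  exact h1

theorem three0 [FiniteDimensional ℂ V] (r : FreeGroup (Fin n) →* End ℂ V) (hr : Char r)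
    (τ δ : ℂ) (hτ : τ ≠ 0) (hn : 3 ≤ n)
    (hb : ∀ j, BlockCond (r (FreeGroup.of j)) (qp τ δ) 0) (w1 w2 w3 : FreeGroup (Fin n)) :
    (r w1 - 1) * (r w2 - 1) * (r w3 - 1) = 0 := by
  have h := (good0 r hr τ δ hb).cube hτ (by rw [Finset.card_empty]; omega) w1 w2 w3
  rw [Nn_rhoL, Nn_rhoL, Nn_rhoL, mul_one] at h
  rw [mul_assoc]
  exact h

theorem one0 [FiniteDimensional ℂ V] (r : FreeGroup (Fin n) →* End ℂ V) (hr : Char r)
    (δ : ℂ) (hn : 3 ≤ n)
    (hb : ∀ j, BlockCond (r (FreeGroup.of j)) (qp 0 δ) 0) (w : FreeGroup (Fin n))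
    (hw : w ∈ Nsq n) : r w - 1 = 0 := by
  have h := (good0 r hr 0 δ hb).nsq (by rw [Finset.card_empty]; omega) w hw
  rw [Nn_rhoL, mul_one] at h
  exact h

/-- the product of seven, all cases with `τ ≠ 0` -/
theorem seven_all [FiniteDimensional ℂ V] (r : FreeGroup (Fin n) →* End ℂ V) (hr : Char r)
    (τ δ : ℂ) (hτ : τ ≠ 0) (hδ : δ ≠ 0) (b : ℕ)
    (hn : (3 ≤ n ∧ b = 0) ∨ (5 ≤ n ∧ b * b + 4 ≤ n))
    (hb : ∀ j, BlockCond (r (FreeGroup.of j)) (qp τ δ) b) (w1 w2 w3 w4 w5 w6 w7 :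
      FreeGroup (Fin n)) :
    (r w1 - 1) * (r w2 - 1) * (r w3 - 1) * (r w4 - 1) * (r w5 - 1) * (r w6 - 1) * (r w7 - 1)
      = 0 := by
  rcases hn with ⟨hn, rfl⟩ | ⟨hn, hbn⟩
  · rw [three0 r hr τ δ hτ hn hb w1 w2 w3]
    simp
  · exact seven r hr τ δ hτ hδ b hn hbn hb w1 w2 w3 w4 w5 w6 w7

/-- the product of seven on the squares, all cases -/
theorem seven_sq [FiniteDimensional ℂ V] (r : FreeGroup (Fin n) →* End ℂ V) (hr : Char r)
    (τ δ : ℂ) (hδ : δ ≠ 0) (b : ℕ)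
    (hn : (3 ≤ n ∧ b = 0) ∨ (5 ≤ n ∧ b * b + 4 ≤ n))
    (hb : ∀ j, BlockCond (r (FreeGroup.of j)) (qp τ δ) b) (w1 w2 w3 w4 w5 w6 w7 :
      FreeGroup (Fin n)) (h1 : w1 ∈ Nsq n) (h3 : w3 ∈ Nsq n) :
    (r w1 - 1) * (r w2 - 1) * (r w3 - 1) * (r w4 - 1) * (r w5 - 1) * (r w6 - 1) * (r w7 - 1)
      = 0 := by
  by_cases hτ : τ = 0
  · subst hτ
    have : (r w1 - 1) * (r w2 - 1) * (r w3 - 1) = 0 := by
      rcases hn with ⟨hn, rfl⟩ | ⟨hn, hbn⟩
      · rw [one0 r hr δ hn hb w1 h1]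
        simp
      · exact three r hr δ hδ b hn hbn hb w1 w2 w3 h1 h3
    rw [this]
    simp
  · exact seven_all r hr τ δ hτ hδ b hn hb w1 w2 w3 w4 w5 w6 w7

end Pool.Agent.H26.CH
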