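import Pool.Agent.H26.CH.Trv

/-!
# Commuting involutions permuted by transpositions; representations of small dimension
-/

set_option autoImplicit false

namespace Pool.Agent.H26.CH

open Module

section Inv

variable {W : Type*} [AddCommGroup W] [Module ℂ W] {ι : Type*} [Fintype ι] [DecidableEq ι]

theorem exists_joint (T : ι → Module.End ℂ W) (hT2 : ∀ p, T p * T p = 1)
    (hc : ∀ p q, T p * T q = T q * T p) (p q : ι) (hne : T p ≠ T q) :
    ∃ v : W, v ≠ 0 ∧ T p v = - T q v ∧ ∀ r, T r v = v ∨ T r v = -v := by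
  have hT2' : ∀ p v, T p (T p v) = v := fun p v => by
    have := DFunLike.congr_fun (hT2 p) v
    simpa using this
  have hc' : ∀ p q v, T p (T q v) = T q (T p v) := fun p q v => by
    have := DFunLike.congr_fun (hc p q) v
    simpa using this
  obtain ⟨u, hu⟩ : ∃ u, T p u ≠ T q u := by
    by_contra h
    push Not at h
    exact hne (LinearMap.ext h)
  have key : ∀ s : Finset ι, ∃ v : W, v ≠ 0 ∧ T p v = - T q v ∧
      ∀ r ∈ s, T r v = v ∨ T r v = -v := by
    intro s
    induction s using Finset.induction_on with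
    | empty =>
      refine ⟨T p u - T q u, sub_ne_zero.mpr hu, ?_, by simp⟩
      rw [map_sub, map_sub, hT2', hT2', hc' q p]
      abel
    | insert r s hr ih =>
      obtain ⟨v, hv0, hv, hs⟩ := ih
      by_cases h : T r v = -v
      · refine ⟨v, hv0, hv, ?_⟩
        intro r' hr'
        rcases Finset.mem_insert.mp hr' with rfl | h'
        · exact Or.inr h
        · exact hs r' h'
      · refine ⟨v + T r v, ?_, ?_, ?_⟩
        · intro h0
          exact h (eq_neg_of_add_eq_zero_right h0)
        · rw [map_add, map_add, hc' p r, hv, map_neg, hc' r q]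
          abel
        · intro r' hr'
          rcases Finset.mem_insert.mp hr' with rfl | h'
          · left
            rw [map_add, hT2', add_comm]
          · rcases hs r' h' with h1 | h1
            · left
              rw [map_add, hc' r' r, h1]
            · right
              rw [map_add, hc' r' r, h1, map_neg]
              abel
  obtain ⟨v, h1, h2, h3⟩ := key Finset.univ
  exact ⟨v, h1, h2, fun r => h3 r (Finset.mem_univ r)⟩

theorem inv_eq [FiniteDimensional ℂ W] (T : ι → Module.End ℂ W) (s : ι → ι → Module.End ℂ W)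
    (hT2 : ∀ p, T p * T p = 1) (hc : ∀ p q, T p * T q = T q * T p)
    (hs : ∀ p q r, s p q * T r = T (Equiv.swap p q r) * s p q)
    (hi : ∀ p q, Function.Injective (s p q)) (hd : finrank ℂ W < Fintype.card ι) (p q : ι) :
    T p = T q := by
  by_contra hne
  obtain ⟨v, hv0, hpq, hr⟩ := exists_joint T hT2 hc p q hne
  -- we may assume that `T p v = -v`
  wlog hp : T p v = -v generalizing p q with H
  · have hp' : T p v = v := (hr p).resolve_right hp
    have hq' : T q v = -T p v := by rw [hpq, neg_neg]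
    refine H q p (Ne.symm hne) hq' ?_
    rw [hq', hp']
  have hv2 : ¬ (v = -v) := by
    intro h
    apply hv0
    have h2 : (2 : ℂ) • v = 0 := by
      rw [two_smul]; nth_rewrite 2 [h]; abel
    exact (smul_eq_zero.mp h2).resolve_left two_ne_zero
  have hq : T q v = v := by
    rw [hpq] at hp
    exact neg_injective hp
  have hpneq : p ≠ q := fun h => hne (by rw [h])
  classical
  let χ : ι → ℂ := fun r => if T r v = -v then -1 else 1
  have hχ : ∀ r, T r v = χ r • v := by
    intro r
    by_cases h : T r v = -v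
    · simp [χ, h]
    · simp [χ, (hr r).resolve_right h]
  have hs' : ∀ a b r, T r (s a b v) = χ (Equiv.swap a b r) • s a b v := by
    intro a b r
    have h1 := DFunLike.congr_fun (hs a b (Equiv.swap a b r)) v
    rw [Equiv.swap_apply_self] at h1
    have h2 : T r (s a b v) = s a b (T (Equiv.swap a b r) v) := h1.symm
    rw [h2, hχ, map_smul]
  let π : ι → Equiv.Perm ι := fun i =>
    if i = p then 1 else if T i v = -v then Equiv.swap i q else Equiv.swap p i
  let g : ι → W := fun i =>
    if i = p then v else if T i v = -v then s i q v else s p i v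
  have hg : ∀ i r, T r (g i) = χ (π i r) • g i := by
    intro i r
    by_cases h1 : i = p
    · simp only [g, π, h1, if_true]
      simpa using hχ r
    · by_cases h2 : T i v = -v
      · simp only [g, π, h1, h2, if_true, if_false]
        exact hs' i q r
      · simp only [g, π, h1, h2, if_false]
        exact hs' p i r
  have hg0 : ∀ i, g i ≠ 0 := by
    intro i
    by_cases h1 : i = p
    · simpa [g, h1] using hv0
    · by_cases h2 : T i v = -v
      · simp only [g, h1, h2, if_true, if_false]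
        exact fun h => hv0 ((map_eq_zero_iff _ (hi i q)).mp h)
      · simp only [g, h1, h2, if_false]
        exact fun h => hv0 ((map_eq_zero_iff _ (hi p i)).mp h)
  have hχp : χ p = -1 := by simp [χ, hp]
  have hχq : χ q = 1 := by
    have : ¬ (T q v = -v) := by rw [hq]; exact hv2
    simp [χ, this]
  have hχA : ∀ i, T i v = -v → χ i = -1 := fun i h => by simp [χ, h]
  have hχB : ∀ i, ¬ (T i v = -v) → χ i = 1 := fun i h => by simp [χ, h]
  have h11 : (-1 : ℂ) ≠ 1 := by norm_num
  -- the characters are distinct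
  have hinj : Function.Injective (fun i r => χ (π i r)) := by
    intro i i' h
    have hev : ∀ r, χ (π i r) = χ (π i' r) := fun r => congrFun h r
    -- value at `p`
    have vp : ∀ i, T i v = -v → χ (π i p) = -1 := by
      intro i hi'
      by_cases h1 : i = p
      · simp [π, h1, hχp]
      · simp only [π, h1, hi', if_true, if_false]
        rw [Equiv.swap_apply_of_ne_of_ne (Ne.symm h1) hpneq, hχp]
    have vp' : ∀ i, ¬ (T i v = -v) → χ (π i p) = 1 := by
      intro i hi'
      have h1 : i ≠ p := fun h => hi' (by rw [h]; exact hp)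
      simp only [π, h1, hi', if_false]
      rw [Equiv.swap_apply_left, hχB i hi']
    by_cases hA : T i v = -v
    · have hA' : T i' v = -v := by
        by_contra hB
        have := hev p
        rw [vp i hA, vp' i' hB] at this
        exact h11 this
      -- value at `q`
      have vq : ∀ i, i ≠ p → T i v = -v → χ (π i q) = -1 := by
        intro i h1 h2
        simp only [π, h1, h2, if_true, if_false]
        rw [Equiv.swap_apply_right, hχA i h2]
      have vq' : χ (π p q) = 1 := by simp [π, hχq]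
      by_cases h1 : i = p
      · by_cases h2 : i' = p
        · rw [h1, h2]
        · exfalso
          have := hev q
          rw [h1, vq', vq i' h2 hA'] at this
          exact h11 this.symm
      · by_cases h2 : i' = p
        · exfalso
          have := hev q
          rw [h2, vq', vq i h1 hA] at this
          exact h11 this
        · by_contra hne'
          have h3 : χ (π i i) = 1 := by
            simp only [π, h1, hA, if_true, if_false]
            rw [Equiv.swap_apply_left, hχq]
          have h4 : χ (π i' i) = -1 := by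
            simp only [π, h2, hA', if_true, if_false]
            rw [Equiv.swap_apply_of_ne_of_ne hne' (fun h => by
              rw [h, hq] at hA; exact hv2 hA), hχA i hA]
          have := hev i
          rw [h3, h4] at this
          exact h11 this.symm
    · have hA' : ¬ (T i' v = -v) := by
        intro hB
        have := hev p
        rw [vp' i hA, vp i' hB] at this
        exact h11 this.symm
      have h1 : i ≠ p := fun h => hA (by rw [h]; exact hp)
      have h2 : i' ≠ p := fun h => hA' (by rw [h]; exact hp)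
      by_contra hne'
      have h3 : χ (π i i) = -1 := by
        simp only [π, h1, hA, if_false]
        rw [Equiv.swap_apply_right, hχp]
      have h4 : χ (π i' i) = 1 := by
        simp only [π, h2, hA', if_false]
        rw [Equiv.swap_apply_of_ne_of_ne h1 hne', hχB i hA]
      have := hev i
      rw [h3, h4] at this
      exact h11 this
  have hind := Module.End.independent_iInf_maxGenEigenspace_of_forall_mapsTo T
    (fun i j φ => Module.End.mapsTo_maxGenEigenspace_of_comm (hc j i) φ)
  have hind' := hind.comp hinj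
  have hmem : ∀ i, g i ∈ ⨅ r, (T r).maxGenEigenspace (χ (π i r)) := by
    intro i
    rw [Submodule.mem_iInf]
    intro r
    rw [Module.End.mem_maxGenEigenspace]
    refine ⟨1, ?_⟩
    rw [pow_one, LinearMap.sub_apply, hg i r, LinearMap.smul_apply, Module.End.one_apply, sub_self]
  have hli : LinearIndependent ℂ g := hind'.linearIndependent _ hmem hg0
  have := hli.fintype_card_le_finrank
  omega

end Inv

/-- a representation of the automorphisms fixing the letters `j`, `k` (defined on all automorphisms,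
multiplicative on those which fix the two letters) of dimension at most `n - 4` is trivial on the
transvections -/
theorem small_dim {n : ℕ} {W : Type*} [AddCommGroup W] [Module ℂ W] [FiniteDimensional ℂ W]
    (j k : Fin n) (θ : MulAut (FreeGroup (Fin n)) → Module.End ℂ W) (h1 : θ 1 = 1)
    (hm : ∀ σ τ, Fx j k σ → Fx j k τ → θ (σ * τ) = θ σ * θ τ)
    (hd : finrank ℂ W + 4 ≤ n) (p l : Fin n) (hpj : p ≠ j) (hpk : p ≠ k) (hlp : l ≠ p) :
    θ (Rt p l) = 1 := by
  classical
  have hinj : ∀ σ, Fx j k σ → Fx j k σ⁻¹ := by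
    intro σ hσ
    constructor
    · rw [MulAut.inv_apply, MulEquiv.symm_apply_eq]; exact hσ.1.symm
    · rw [MulAut.inv_apply, MulEquiv.symm_apply_eq]; exact hσ.2.symm
  have hinv : ∀ σ, Fx j k σ → θ σ⁻¹ * θ σ = 1 := by
    intro σ hσ
    rw [← hm _ _ (hinj σ hσ) hσ, inv_mul_cancel, h1]
  have hinv' : ∀ σ, Fx j k σ → θ σ * θ σ⁻¹ = 1 := by
    intro σ hσ
    rw [← hm _ _ hσ (hinj σ hσ), mul_inv_cancel, h1]
  have hcard : ∀ S : Finset (Fin n), S.card ≤ 2 → ∀ l, ∃ m, m ∉ S ∧ m ≠ l := by
    intro S hS l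
    by_contra hcon
    push Not at hcon
    have : (Finset.univ : Finset (Fin n)) ⊆ insert l S := by
      intro m _
      by_cases hmS : m ∈ S
      · exact Finset.mem_insert_of_mem hmS
      · rw [hcon m hmS]; exact Finset.mem_insert_self _ _
    have h2 := Finset.card_le_card this
    have h3 := Finset.card_insert_le l S
    rw [Finset.card_univ, Fintype.card_fin] at h2
    omega
  -- the inversions
  have hEp : ∀ p q, p ≠ j → p ≠ k → q ≠ j → q ≠ k → θ (Ep p) = θ (Ep q) := by
    intro p q hpj hpk hqj hqk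
    have := inv_eq (W := W) (ι := {i : Fin n // i ≠ j ∧ i ≠ k}) (fun i => θ (Ep i.1))
      (fun a b => θ (Sw a.1 b.1))
      (fun a => by
        rw [← hm _ _ (Fx_Ep a.2.1 a.2.2) (Fx_Ep a.2.1 a.2.2), Ep_sq, h1])
      (fun a b => by
        rw [← hm _ _ (Fx_Ep a.2.1 a.2.2) (Fx_Ep b.2.1 b.2.2), Ep_comm,
          hm _ _ (Fx_Ep b.2.1 b.2.2) (Fx_Ep a.2.1 a.2.2)])
      (fun a b c => by
        have hsw : ((Equiv.swap a b) c).1 = Equiv.swap a.1 b.1 c.1 := by
          by_cases h1 : c = a
          · subst h1; simp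
          · by_cases h2 : c = b
            · subst h2; simp
            · rw [Equiv.swap_apply_of_ne_of_ne h1 h2, Equiv.swap_apply_of_ne_of_ne
                (fun h => h1 (Subtype.ext h)) (fun h => h2 (Subtype.ext h))]
        rw [← hm _ _ (Fx_Sw a.2.1 a.2.2 b.2.1 b.2.2) (Fx_Ep c.2.1 c.2.2), Sw_Ep, hm, hsw]
        · rw [← hsw]
          exact Fx_Ep (Equiv.swap a b c).2.1 (Equiv.swap a b c).2.2
        · exact Fx_Sw a.2.1 a.2.2 b.2.1 b.2.2)
      (fun a b => by
        have := hinv _ (Fx_Sw a.2.1 a.2.2 b.2.1 b.2.2 : Fx j k (Sw a.1 b.1))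
        exact Function.LeftInverse.injective
          (g := θ (Sw a.1 b.1)⁻¹) (fun x => DFunLike.congr_fun this x))
      (by
        have hc : Fintype.card {i : Fin n // i ≠ j ∧ i ≠ k} + 2 ≥ n := by
          have h2 : Fintype.card {i : Fin n // i ≠ j ∧ i ≠ k} =
              (Finset.univ.filter fun i : Fin n => i ≠ j ∧ i ≠ k).card :=
            Fintype.card_subtype _
          have h3 : (Finset.univ : Finset (Fin n)) ⊆
              (Finset.univ.filter fun i : Fin n => i ≠ j ∧ i ≠ k) ∪ {j, k} := by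
            intro m _
            by_cases hmj : m = j
            · simp [hmj]
            · by_cases hmk : m = k
              · simp [hmk]
              · simp [hmj, hmk]
          have h4 := (Finset.card_le_card h3).trans (Finset.card_union_le _ _)
          have h5 : ({j, k} : Finset (Fin n)).card ≤ 2 := Finset.card_le_two
          rw [Finset.card_univ, Fintype.card_fin] at h4
          omega
        omega)
      ⟨p, hpj, hpk⟩ ⟨q, hqj, hqk⟩
    exact this
  -- trivial case
  by_cases h0 : finrank ℂ W = 0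
  · have : Subsingleton W := Module.finrank_zero_iff.mp h0
    exact LinearMap.ext fun x => Subsingleton.elim _ _
  have hn5 : 5 ≤ n := by omega
  have hex : ∀ p l, ∃ q, q ≠ j ∧ q ≠ k ∧ q ≠ p ∧ q ≠ l := by
    intro p l
    by_contra hcon
    push Not at hcon
    have : (Finset.univ : Finset (Fin n)) ⊆ {j, k, p, l} := by
      intro m _
      by_cases h1 : m = j
      · simp [h1]
      · by_cases h2 : m = k
        · simp [h2]
        · by_cases h3 : m = p
          · simp [h3]
          · simp [hcon m h1 h2 h3]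
    have h2 := Finset.card_le_card this
    have h3 : ({j, k, p, l} : Finset (Fin n)).card ≤ 4 := Finset.card_le_four
    rw [Finset.card_univ, Fintype.card_fin] at h2
    omega
  have hEp2 : ∀ p, p ≠ j → p ≠ k → θ (Ep p) * θ (Ep p) = 1 := by
    intro p hpj hpk
    rw [← hm _ _ (Fx_Ep hpj hpk) (Fx_Ep hpj hpk), Ep_sq, h1]
  -- `R = L⁻¹`
  have hRL : ∀ p l, p ≠ j → p ≠ k → l ≠ p → θ (Rt p l) * θ (Lt p l) = 1 := by
    intro p l hpj hpk hlp
    have hfR := Fx_Rt hlp hpj hpk
    have hfL := Fx_Lt hlp hpj hpk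
    have hfE : Fx j k (Ep p) := Fx_Ep hpj hpk
    obtain ⟨q, hqj, hqk, hqp, hql⟩ := hex p l
    have hfq : Fx j k (Ep q) := Fx_Ep hqj hqk
    have e1 : θ (Ep p) * θ (Rt p l) * θ (Ep p) * θ (Lt p l) = 1 := by
      rw [← hm _ _ hfE hfR, ← hm _ _ (hfE.mul hfR) hfE, ← hm _ _ ((hfE.mul hfR).mul hfE) hfL,
        Ep_Rt_Lt hlp, h1]
    have e2 : θ (Ep q) * θ (Rt p l) = θ (Rt p l) * θ (Ep q) := by
      rw [← hm _ _ hfq hfR, Ep_Rt_comm hlp hqp hql, hm _ _ hfR hfq]
    rw [hEp p q hpj hpk hqj hqk, e2, mul_assoc (θ (Rt p l)), hEp2 q hqj hqk, mul_one] at e1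
    exact e1
  have hLR : ∀ p l, p ≠ j → p ≠ k → l ≠ p → θ (Lt p l) * θ (Rt p l) = 1 := by
    intro p l hpj hpk hlp
    have e1 := hRL p l hpj hpk hlp
    have e2 := hinv _ (Fx_Rt hlp hpj hpk : Fx j k (Rt p l))
    have e3 : θ (Lt p l) = θ (Rt p l)⁻¹ := by
      calc θ (Lt p l) = (θ (Rt p l)⁻¹ * θ (Rt p l)) * θ (Lt p l) := by rw [e2, one_mul]
        _ = θ (Rt p l)⁻¹ := by rw [mul_assoc, e1, mul_one]
    rw [e3, e2]
  -- the right transvections into the same letter commute
  have hRR : ∀ p l m, p ≠ j → p ≠ k → l ≠ p → m ≠ p →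
      θ (Rt p m) * θ (Rt p l) = θ (Rt p l) * θ (Rt p m) := by
    intro p l m hpj hpk hlp hmp
    have hfR : Fx j k (Rt p l) := Fx_Rt hlp hpj hpk
    have hfL : Fx j k (Lt p m) := Fx_Lt hmp hpj hpk
    have e : θ (Lt p m) * θ (Rt p l) = θ (Rt p l) * θ (Lt p m) := by
      rw [← hm _ _ hfL hfR, Lt_Rt_comm hlp hmp, hm _ _ hfR hfL]
    calc θ (Rt p m) * θ (Rt p l)
        = θ (Rt p m) * (θ (Rt p l) * (θ (Lt p m) * θ (Rt p m))) := by
          rw [hLR p m hpj hpk hmp, mul_one]
      _ = θ (Rt p m) * ((θ (Rt p l) * θ (Lt p m)) * θ (Rt p m)) := by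
          rw [mul_assoc (θ (Rt p l))]
      _ = θ (Rt p m) * ((θ (Lt p m) * θ (Rt p l)) * θ (Rt p m)) := by rw [e]
      _ = (θ (Rt p m) * θ (Lt p m)) * (θ (Rt p l) * θ (Rt p m)) := by
          simp only [mul_assoc]
      _ = θ (Rt p l) * θ (Rt p m) := by rw [hRL p m hpj hpk hmp, one_mul]
  -- involutions, for a moved letter `l`
  have hinv1 : ∀ p l, p ≠ j → p ≠ k → l ≠ j → l ≠ k → l ≠ p →
      θ (Rt p l) * θ (Rt p l) = 1 := by
    intro p l hpj hpk hlj hlk hlp
    have hfR := Fx_Rt hlp hpj hpk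
    have hfE : Fx j k (Ep l) := Fx_Ep hlj hlk
    obtain ⟨q, hqj, hqk, hqp, hql⟩ := hex p l
    have hfq : Fx j k (Ep q) := Fx_Ep hqj hqk
    have e1 : θ (Ep l) * θ (Rt p l) * θ (Ep l) * θ (Rt p l) = 1 := by
      rw [← hm _ _ hfE hfR, ← hm _ _ (hfE.mul hfR) hfE, ← hm _ _ ((hfE.mul hfR).mul hfE) hfR,
        Ep_Rt_inv hlp, h1]
    have e2 : θ (Ep q) * θ (Rt p l) = θ (Rt p l) * θ (Ep q) := by
      rw [← hm _ _ hfq hfR, Ep_Rt_comm hlp hqp hql, hm _ _ hfR hfq]
    rw [hEp l q hlj hlk hqj hqk, e2, mul_assoc (θ (Rt p l)), hEp2 q hqj hqk, mul_one] at e1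
    exact e1
  have hcr : ∀ p m l, p ≠ j → p ≠ k → m ≠ j → m ≠ k → m ≠ p → l ≠ p → l ≠ m →
      θ (Rt m l) * θ (Rt p m) = θ (Rt p m) * θ (Rt p l) * θ (Rt m l) := by
    intro p m l hpj hpk hmj hmk hmp hlp hlm
    have f1 : Fx j k (Rt m l) := Fx_Rt hlm hmj hmk
    have f2 : Fx j k (Rt p m) := Fx_Rt hmp hpj hpk
    have f3 : Fx j k (Rt p l) := Fx_Rt hlp hpj hpk
    rw [← hm _ _ f1 f2, Rt_Rt hmp hlp hlm, hm _ _ (f2.mul f3) f1, hm _ _ f2 f3]
  have hinv2 : ∀ p l, p ≠ j → p ≠ k → l ≠ p → θ (Rt p l) * θ (Rt p l) = 1 := by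
    intro p l hpj hpk hlp
    obtain ⟨m, hmj, hmk, hmp, hml⟩ := hex p l
    have e1 := hcr p m l hpj hpk hmj hmk hmp hlp hml.symm
    have e2 := hinv1 p m hpj hpk hmj hmk hmp
    have e3 := hRR p l m hpj hpk hlp hmp
    have f1 : Fx j k (Rt m l) := Fx_Rt hml.symm hmj hmk
    have e4 := hinv' _ f1
    have e5 := hinv _ f1
    set c := θ (Rt m l) with hc
    set r := θ (Rt p m) with hr
    set a := θ (Rt p l) with ha
    set c' := θ (Rt m l)⁻¹ with hc'
    have e6 : r * a = c * r * c' := by
      rw [e1, mul_assoc _ c c', e4, mul_one]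
    have e7 : (r * a) * (r * a) = 1 := by
      rw [e6]
      calc c * r * c' * (c * r * c') = c * r * (c' * c) * r * c' := by simp only [mul_assoc]
        _ = 1 := by rw [e5, mul_one, mul_assoc c r r, e2, mul_one, e4]
    calc a * a = (r * r) * (a * a) := by rw [e2, one_mul]
      _ = r * (r * a) * a := by simp only [mul_assoc]
      _ = r * (a * r) * a := by rw [e3]
      _ = (r * a) * (r * a) := by simp only [mul_assoc]
      _ = 1 := e7
  -- all equal
  have heq : ∀ l p q, p ≠ j → p ≠ k → q ≠ j → q ≠ k → l ≠ p → l ≠ q →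
      θ (Rt p l) = θ (Rt q l) := by
    intro l p q hpj hpk hqj hqk hlp hlq
    have := inv_eq (W := W) (ι := {i : Fin n // i ≠ j ∧ i ≠ k ∧ i ≠ l})
      (fun i => θ (Rt i.1 l)) (fun a b => θ (Sw a.1 b.1))
      (fun a => hinv2 _ _ a.2.1 a.2.2.1 a.2.2.2.symm)
      (fun a b => by
        have fa : Fx j k (Rt a.1 l) := Fx_Rt a.2.2.2.symm a.2.1 a.2.2.1
        have fb : Fx j k (Rt b.1 l) := Fx_Rt b.2.2.2.symm b.2.1 b.2.2.1
        rw [← hm _ _ fa fb, Rt_comm a.2.2.2.symm b.2.2.2.symm, hm _ _ fb fa])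
      (fun a b c => by
        have hsw : ((Equiv.swap a b) c).1 = Equiv.swap a.1 b.1 c.1 := by
          by_cases h1 : c = a
          · subst h1; simp
          · by_cases h2 : c = b
            · subst h2; simp
            · rw [Equiv.swap_apply_of_ne_of_ne h1 h2, Equiv.swap_apply_of_ne_of_ne
                (fun h => h1 (Subtype.ext h)) (fun h => h2 (Subtype.ext h))]
        have fs : Fx j k (Sw a.1 b.1) := Fx_Sw a.2.1 a.2.2.1 b.2.1 b.2.2.1
        have fc : Fx j k (Rt c.1 l) := Fx_Rt c.2.2.2.symm c.2.1 c.2.2.1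
        have fd : Fx j k (Rt (Equiv.swap a.1 b.1 c.1) l) := by
          rw [← hsw]
          exact Fx_Rt (Equiv.swap a b c).2.2.2.symm (Equiv.swap a b c).2.1
            (Equiv.swap a b c).2.2.1
        rw [← hm _ _ fs fc, Sw_Rt c.2.2.2.symm a.2.2.2.symm b.2.2.2.symm, hm _ _ fd fs, hsw])
      (fun a b => by
        have := hinv _ (Fx_Sw a.2.1 a.2.2.1 b.2.1 b.2.2.1 : Fx j k (Sw a.1 b.1))
        exact Function.LeftInverse.injective
          (g := θ (Sw a.1 b.1)⁻¹) (fun x => DFunLike.congr_fun this x))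
      (by
        have hc : Fintype.card {i : Fin n // i ≠ j ∧ i ≠ k ∧ i ≠ l} + 3 ≥ n := by
          have h2 : Fintype.card {i : Fin n // i ≠ j ∧ i ≠ k ∧ i ≠ l} =
              (Finset.univ.filter fun i : Fin n => i ≠ j ∧ i ≠ k ∧ i ≠ l).card :=
            Fintype.card_subtype _
          have h3 : (Finset.univ : Finset (Fin n)) ⊆
              (Finset.univ.filter fun i : Fin n => i ≠ j ∧ i ≠ k ∧ i ≠ l) ∪ {j, k, l} := by
            intro m _
            by_cases hmj : m = j
            · simp [hmj]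
            · by_cases hmk : m = k
              · simp [hmk]
              · by_cases hml : m = l
                · simp [hml]
                · simp [hmj, hmk, hml]
          have h4 := (Finset.card_le_card h3).trans (Finset.card_union_le _ _)
          have h5 : ({j, k, l} : Finset (Fin n)).card ≤ 3 := Finset.card_le_three
          rw [Finset.card_univ, Fintype.card_fin] at h4
          omega
        omega)
      ⟨p, hpj, hpk, hlp.symm⟩ ⟨q, hqj, hqk, hlq.symm⟩
    exact this
  obtain ⟨m, hmj, hmk, hmp, hml⟩ := hex p l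
  have e1 := hcr p m l hpj hpk hmj hmk hmp hlp hml.symm
  have e2 := heq l p m hpj hpk hmj hmk hlp hml.symm
  have e3 := hinv2 m l hmj hmk hml.symm
  have e4 := hinv1 p m hpj hpk hmj hmk hmp
  rw [e2] at e1 ⊢
  rw [mul_assoc, e3, mul_one] at e1
  calc θ (Rt m l) = θ (Rt m l) * (θ (Rt p m) * θ (Rt p m)) := by rw [e4, mul_one]
    _ = (θ (Rt m l) * θ (Rt p m)) * θ (Rt p m) := by rw [mul_assoc]
    _ = 1 := by rw [e1, e4]

/-- relative form of `small_dim` -/
theorem small_rel {n : ℕ} {E : Type*} [AddCommGroup E] [Module ℂ E] [FiniteDimensional ℂ E]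
    (j k : Fin n) (c : MulAut (FreeGroup (Fin n)) → Module.End ℂ E) (H0 H1 : Submodule ℂ E)
    (h01 : H0 ≤ H1)
    (hs0 : ∀ σ, Fx j k σ → ∀ a ∈ H0, c σ a ∈ H0) (hs1 : ∀ σ, Fx j k σ → ∀ a ∈ H1, c σ a ∈ H1)
    (h1 : ∀ a ∈ H1, c 1 a = a)
    (hm : ∀ σ τ, Fx j k σ → Fx j k τ → ∀ a ∈ H1, c (σ * τ) a = c σ (c τ a))
    (hd : finrank ℂ H1 + 4 ≤ finrank ℂ H0 + n) (p l : Fin n) (hpj : p ≠ j) (hpk : p ≠ k)
    (hlp : l ≠ p) (a : E) (ha : a ∈ H1) : c (Rt p l) a - a ∈ H0 := by
  classical
  have hle : ∀ σ (h : Fx j k σ), (H0.comap H1.subtype) ≤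
      (H0.comap H1.subtype).comap ((c σ).restrict (hs1 σ h)) := by
    intro σ h x hx
    exact hs0 σ h _ hx
  let θ : MulAut (FreeGroup (Fin n)) → Module.End ℂ (H1 ⧸ H0.comap H1.subtype) := fun σ =>
    if h : Fx j k σ then Submodule.mapQ (H0.comap H1.subtype) (H0.comap H1.subtype)
      ((c σ).restrict (hs1 σ h)) (hle σ h) else 0
  have hθ : ∀ σ (h : Fx j k σ) (x : H1), θ σ ((H0.comap H1.subtype).mkQ x) =
      (H0.comap H1.subtype).mkQ ⟨c σ x.1, hs1 σ h x.1 x.2⟩ := by
    intro σ h x
    simp only [θ, dif_pos h]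
    rfl
  have hfr : finrank ℂ (H1 ⧸ H0.comap H1.subtype) + 4 ≤ n := by
    have e1 := Submodule.finrank_quotient_add_finrank (H0.comap H1.subtype)
    have e2 : finrank ℂ (H0.comap H1.subtype) = finrank ℂ H0 :=
      (Submodule.comapSubtypeEquivOfLe h01).finrank_eq
    omega
  have key := small_dim (W := H1 ⧸ H0.comap H1.subtype) j k θ
    (by
      apply LinearMap.ext
      intro x
      obtain ⟨x, rfl⟩ := Submodule.mkQ_surjective _ x
      rw [hθ 1 (Fx_one j k), Module.End.one_apply]
      congr 1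
      exact Subtype.ext (h1 x.1 x.2))
    (by
      intro σ τ hσ hτ
      apply LinearMap.ext
      intro x
      obtain ⟨x, rfl⟩ := Submodule.mkQ_surjective _ x
      rw [hθ _ (hσ.mul hτ), Module.End.mul_apply, hθ _ hτ, hθ _ hσ]
      congr 1
      exact Subtype.ext (hm σ τ hσ hτ x.1 x.2))
    hfr p l hpj hpk hlp
  have e := DFunLike.congr_fun key ((H0.comap H1.subtype).mkQ ⟨a, ha⟩)
  rw [hθ _ (Fx_Rt hlp hpj hpk), Module.End.one_apply] at e
  have e2 := (Submodule.Quotient.eq _).mp e
  exact e2

end Pool.Agent.H26.CH
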