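import Mathlib

/-!
# Hyperinvariant subspaces: one step of small dimension
-/

set_option autoImplicit false

namespace Pool.Agent.H26.CH

open Module Polynomial

variable {V : Type*} [AddCommGroup V] [Module ℂ V]

/-- the Jordan blocks `J_{i+1}(ν)` of `f` with `(X - ν) ^ (i + 1) ∤ q` all occur at most `b`
times -/
def BlockCond (f : End ℂ V) (q : ℂ[X]) (b : ℕ) : Prop :=
  ∀ (ν : ℂ) (i : ℕ), ¬ (X - C ν) ^ (i + 1) ∣ q →
    finrank ℂ (LinearMap.range ((f - ν • (1 : End ℂ V)) ^ i)) +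
      finrank ℂ (LinearMap.range ((f - ν • (1 : End ℂ V)) ^ (i + 2))) ≤
      2 * finrank ℂ (LinearMap.range ((f - ν • (1 : End ℂ V)) ^ (i + 1))) + b

/-- `S` is stable under everything that commutes with `f` -/
def Hyp (f : End ℂ V) (S : Submodule ℂ V) : Prop :=
  ∀ g : End ℂ V, g * f = f * g → ∀ v ∈ S, g v ∈ S

theorem quot_dim [FiniteDimensional ℂ V] (L : End ℂ V) (Z S K K' : Submodule ℂ V) (hK : K' ≤ K)
    (h1 : ∀ z ∈ Z, L z ∈ K) (h2 : ∀ z ∈ Z, L z ∈ K' → z ∈ S) :
    finrank ℂ Z + finrank ℂ K' ≤ finrank ℂ S + finrank ℂ K := by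
  let φ : Z →ₗ[ℂ] (K ⧸ K'.comap K.subtype) :=
    (K'.comap K.subtype).mkQ ∘ₗ (L.restrict h1)
  have e1 := LinearMap.finrank_range_add_finrank_ker φ
  have e2 : finrank ℂ (LinearMap.range φ) ≤ finrank ℂ (K ⧸ K'.comap K.subtype) :=
    Submodule.finrank_le _
  have e3 := Submodule.finrank_quotient_add_finrank (K'.comap K.subtype)
  have e4 : finrank ℂ (K'.comap K.subtype) = finrank ℂ K' :=
    (Submodule.comapSubtypeEquivOfLe hK).finrank_eq
  have e5 : finrank ℂ (LinearMap.ker φ) ≤ finrank ℂ S := by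
    have hk : ∀ x : LinearMap.ker φ, (x.1.1 : V) ∈ S := by
      intro x
      apply h2 _ x.1.2
      have hx := x.2
      rw [LinearMap.mem_ker] at hx
      have := (Submodule.Quotient.mk_eq_zero (K'.comap K.subtype)).mp hx
      exact this
    let ψ : LinearMap.ker φ →ₗ[ℂ] S :=
      LinearMap.codRestrict S (Z.subtype ∘ₗ (LinearMap.ker φ).subtype) hk
    apply LinearMap.finrank_le_finrank_of_injective (f := ψ)
    intro x y hxy
    have : (x.1.1 : V) = y.1.1 := congrArg (fun t : S => (t : V)) hxy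
    exact Subtype.ext (Subtype.ext this)
  omega

theorem finrank_ker_inf_range [FiniteDimensional ℂ V] (N : End ℂ V) (i : ℕ) :
    finrank ℂ (LinearMap.ker N ⊓ LinearMap.range (N ^ i) : Submodule ℂ V) +
      finrank ℂ (LinearMap.range (N ^ (i + 1))) = finrank ℂ (LinearMap.range (N ^ i)) := by
  have e1 := LinearMap.finrank_range_add_finrank_ker (N.domRestrict (LinearMap.range (N ^ i)))
  have e2 : LinearMap.range (N.domRestrict (LinearMap.range (N ^ i))) =
      LinearMap.range (N ^ (i + 1)) := by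
    ext v
    constructor
    · rintro ⟨⟨x, ⟨u, hu⟩⟩, rfl⟩
      exact ⟨u, by rw [pow_succ', Module.End.mul_apply, hu]; rfl⟩
    · rintro ⟨u, rfl⟩
      exact ⟨⟨(N ^ i) u, ⟨u, rfl⟩⟩, by rw [pow_succ', Module.End.mul_apply]; rfl⟩
  have e3 : finrank ℂ (LinearMap.ker (N.domRestrict (LinearMap.range (N ^ i)))) =
      finrank ℂ (LinearMap.ker N ⊓ LinearMap.range (N ^ i) : Submodule ℂ V) := by
    have h1 : LinearMap.ker (N.domRestrict (LinearMap.range (N ^ i))) =
        (LinearMap.ker N ⊓ LinearMap.range (N ^ i) : Submodule ℂ V).comap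
          (LinearMap.range (N ^ i)).subtype := by
      ext v
      rw [LinearMap.mem_ker, Submodule.mem_comap, Submodule.mem_inf, LinearMap.mem_ker]
      exact ⟨fun h => ⟨h, v.2⟩, fun h => h.1⟩
    rw [h1]
    exact (Submodule.comapSubtypeEquivOfLe inf_le_right).finrank_eq
  rw [e2, e3] at e1
  omega

/-- one step of a chain of hyperinvariant subspaces inside the range of `q(f)` -/
theorem step [FiniteDimensional ℂ V] (f : End ℂ V) (q : ℂ[X]) (hq : q ≠ 0) (b : ℕ)
    (hb : BlockCond f q b) (Y' : Submodule ℂ V) (hY' : Hyp f Y')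
    (hle : Y' ≤ LinearMap.range (aeval f q)) (hne : ¬ LinearMap.range (aeval f q) ≤ Y') :
    ∃ Y'' : Submodule ℂ V, Hyp f Y'' ∧ Y' ≤ Y'' ∧ ¬ Y'' ≤ Y' ∧
      Y'' ≤ LinearMap.range (aeval f q) ∧ finrank ℂ Y'' ≤ finrank ℂ Y' + b := by
  set Y := LinearMap.range (aeval f q) with hY
  have hfY : ∀ x ∈ Y, f x ∈ Y := by
    rintro _ ⟨u, rfl⟩
    refine ⟨f u, ?_⟩
    have : aeval f q * f = f * aeval f q := by
      have h : aeval f (q * X) = aeval f (X * q) := by rw [mul_comm]
      rwa [map_mul, map_mul, aeval_X] at h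
    exact DFunLike.congr_fun this u
  -- an eigenvalue
  obtain ⟨ν, hν⟩ : ∃ ν, ¬ (Y ⊓ f.maxGenEigenspace ν ≤ Y') := by
    by_contra hcon
    push Not at hcon
    apply hne
    rw [Submodule.eq_iSup_inf_genEigenspace ⊤ hfY
      (Module.End.iSup_maxGenEigenspace_eq_top f)]
    exact iSup_le hcon
  set N := f - ν • (1 : End ℂ V) with hN
  -- minimal exponent
  obtain ⟨c, hc1, hc2⟩ : ∃ c, LinearMap.ker (N ^ c) ⊓ Y ≤ Y' ∧
      ¬ (LinearMap.ker (N ^ (c + 1)) ⊓ Y ≤ Y') := by
    by_contra hcon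
    push Not at hcon
    have hall : ∀ c, LinearMap.ker (N ^ c) ⊓ Y ≤ Y' := by
      intro c
      induction c with
      | zero =>
        rintro x ⟨hx, -⟩
        rw [pow_zero] at hx
        have : x = 0 := hx
        rw [this]; exact Y'.zero_mem
      | succ c ih => exact hcon c ih
    apply hν
    rintro x ⟨hxY, hx⟩
    obtain ⟨m, hm⟩ := (Module.End.mem_maxGenEigenspace f ν x).mp hx
    exact hall m ⟨hm, hxY⟩
  -- range exponent
  obtain ⟨a, ha1, ha2⟩ : ∃ a, ¬ (LinearMap.ker (N ^ (c + 1)) ⊓ LinearMap.range (N ^ a) ⊓ Y ≤ Y') ∧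
      LinearMap.ker (N ^ (c + 1)) ⊓ LinearMap.range (N ^ (a + 1)) ⊓ Y ≤ Y' := by
    by_contra hcon
    push Not at hcon
    have hall : ∀ a, ¬ (LinearMap.ker (N ^ (c + 1)) ⊓ LinearMap.range (N ^ a) ⊓ Y ≤ Y') := by
      intro a
      induction a with
      | zero =>
        intro h
        apply hc2
        rintro x ⟨hx1, hx2⟩
        exact h ⟨⟨hx1, ⟨x, by rw [pow_zero]; rfl⟩⟩, hx2⟩
      | succ a ih => exact hcon a ih
    obtain ⟨m, hm⟩ := Filter.eventually_atTop.mp (Module.End.eventually_disjoint_ker_pow_range_pow N)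
    have hd := hm (m + (c + 1)) (by omega)
    apply hall (m + (c + 1))
    rintro x ⟨⟨hx1, hx2⟩, -⟩
    have hx1' : x ∈ LinearMap.ker (N ^ (m + (c + 1))) := by
      have hx1'' : (N ^ (c + 1)) x = 0 := hx1
      rw [LinearMap.mem_ker, pow_add, Module.End.mul_apply, hx1'', map_zero]
    have := Submodule.disjoint_def.mp hd x hx1' hx2
    rw [this]; exact Y'.zero_mem
  obtain ⟨e, q1, hq1, hnd⟩ : ∃ (e : ℕ) (q1 : ℂ[X]), q = (X - C ν) ^ e * q1 ∧
      ¬ (X - C ν) ^ (e + 1) ∣ q := by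
    obtain ⟨q1, hq1⟩ := pow_rootMultiplicity_dvd q ν
    exact ⟨rootMultiplicity ν q, q1, hq1, pow_rootMultiplicity_not_dvd hq ν⟩
  have hN' : aeval f (X - C ν) = N := by
    rw [map_sub, aeval_X, aeval_C, hN, Algebra.algebraMap_eq_smul_one]
  have hqf : aeval f q = N ^ e * aeval f q1 := by
    rw [hq1, map_mul, map_pow, hN']
  have hYr : Y ≤ LinearMap.range (N ^ e) := by
    rintro _ ⟨u, rfl⟩
    exact ⟨aeval f q1 u, by rw [hqf]; rfl⟩
  have hea : e ≤ a := by
    by_contra hlt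
    push Not at hlt
    apply ha1
    rintro x ⟨⟨hx1, -⟩, hx2⟩
    refine ha2 ⟨⟨hx1, ?_⟩, hx2⟩
    obtain ⟨u, hu⟩ := hYr hx2
    refine ⟨(N ^ (e - (a + 1))) u, ?_⟩
    rw [← Module.End.mul_apply, ← pow_add, ← hu]
    congr 2
    omega
  -- coprimality
  have hcop : IsCoprime ((X - C ν) ^ (c + 1)) q1 := by
    apply IsCoprime.pow_left
    rw [(irreducible_X_sub_C ν).coprime_iff_not_dvd]
    rintro ⟨q2, hq2⟩
    apply hnd
    rw [hq1, hq2]
    exact ⟨q2, by ring⟩
  have hZY : ∀ m, e ≤ m → LinearMap.ker (N ^ (c + 1)) ⊓ LinearMap.range (N ^ m) ≤ Y := by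
    rintro m hm x ⟨hx1, ⟨u, hu⟩⟩
    obtain ⟨s, t, hst⟩ := hcop
    have h1 : (aeval f (s * (X - C ν) ^ (c + 1) + t * q1)) x = x := by
      rw [hst, map_one]; rfl
    have hx1' : (N ^ (c + 1)) x = 0 := hx1
    rw [map_add, map_mul, map_mul, map_pow, hN', LinearMap.add_apply, Module.End.mul_apply, hx1',
      map_zero, zero_add, ← hu] at h1
    refine ⟨(aeval f t * N ^ (m - e)) u, ?_⟩
    have h2 : N ^ m = N ^ e * N ^ (m - e) := by
      rw [← pow_add]; congr 1; omega
    have h3 : aeval f t * aeval f q1 * N ^ m = aeval f q * (aeval f t * N ^ (m - e)) := by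
      have h5 : N ^ e = aeval f ((X - C ν) ^ e) := by rw [map_pow, hN']
      have h6 : N ^ (m - e) = aeval f ((X - C ν) ^ (m - e)) := by rw [map_pow, hN']
      rw [h2, hqf, h5, h6]
      simp only [← map_mul]
      congr 1
      ring
    have h4 := DFunLike.congr_fun h3 u
    rw [← Module.End.mul_apply, ← h4, Module.End.mul_apply]
    exact h1.trans hu
  set Z := LinearMap.ker (N ^ (c + 1)) ⊓ LinearMap.range (N ^ a) with hZ
  have hZle : Z ≤ Y := hZY a hea
  have hZnot : ¬ Z ≤ Y' := fun h => ha1 (inf_le_left.trans h)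
  -- commuting operators
  have hHypZ : Hyp f Z := by
    intro g hg v hv
    have hgN : g * N = N * g := by
      rw [hN, mul_sub, sub_mul, hg]
      simp
    have hgNp : ∀ m, g * N ^ m = N ^ m * g := fun m => (Commute.pow_right hgN m : _)
    obtain ⟨hv1, ⟨u, hu⟩⟩ := hv
    refine ⟨?_, ⟨g u, ?_⟩⟩
    · have hv1' : (N ^ (c + 1)) v = 0 := hv1
      have := DFunLike.congr_fun (hgNp (c + 1)) v
      rw [Module.End.mul_apply, Module.End.mul_apply, hv1', map_zero] at this
      exact this.symm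
    · have := DFunLike.congr_fun (hgNp a) u
      rw [Module.End.mul_apply, Module.End.mul_apply, hu] at this
      exact this.symm
  refine ⟨Y' ⊔ Z, ?_, le_sup_left, fun h => hZnot (le_sup_right.trans h), sup_le hle hZle, ?_⟩
  · intro g hg v hv
    obtain ⟨y, hy, z, hz, rfl⟩ := Submodule.mem_sup.mp hv
    rw [map_add]
    exact Submodule.add_mem_sup (hY' g hg y hy) (hHypZ g hg z hz)
  · have e1 := Submodule.finrank_sup_add_finrank_inf_eq Y' Z
    have e2 := quot_dim (N ^ c) Z (Y' ⊓ Z) (LinearMap.ker N ⊓ LinearMap.range (N ^ (a + c)))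
      (LinearMap.ker N ⊓ LinearMap.range (N ^ (a + c + 1)))
      (by
        rintro x ⟨hx1, ⟨u, hu⟩⟩
        exact ⟨hx1, ⟨N u, by rw [← Module.End.mul_apply, ← pow_succ]; exact hu⟩⟩)
      (by
        rintro z ⟨hz1, ⟨u, hu⟩⟩
        have hz1' : (N ^ (c + 1)) z = 0 := hz1
        refine ⟨?_, ⟨u, ?_⟩⟩
        · change N ((N ^ c) z) = 0
          rw [← Module.End.mul_apply, ← pow_succ', hz1']
        · rw [← hu, ← Module.End.mul_apply, ← pow_add, add_comm])
      (by
        rintro z hz ⟨-, ⟨u, hu⟩⟩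
        refine ⟨?_, hz⟩
        obtain ⟨hz1, ⟨u', hu'⟩⟩ := hz
        have hz1' : (N ^ (c + 1)) z = 0 := hz1
        -- `z = N^{a+1} u + w`
        have hw : (N ^ c) (z - (N ^ (a + 1)) u) = 0 := by
          rw [map_sub, ← hu, ← Module.End.mul_apply, ← pow_add, sub_eq_zero]
          congr 2
          omega
        have hw' : (N ^ (c + 1)) (z - (N ^ (a + 1)) u) = 0 := by
          rw [pow_succ', Module.End.mul_apply, hw, map_zero]
        have hy1 : (N ^ (c + 1)) ((N ^ (a + 1)) u) = 0 := by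
          rw [map_sub, hz1', zero_sub, neg_eq_zero] at hw'
          exact hw'
        have hmem1 : (N ^ (a + 1)) u ∈ Y' :=
          ha2 ⟨⟨hy1, ⟨u, rfl⟩⟩, hZY (a + 1) (by omega) ⟨hy1, ⟨u, rfl⟩⟩⟩
        have hmem2 : z - (N ^ (a + 1)) u ∈ Y' := by
          refine hc1 ⟨hw, hZY a hea ⟨hw', ⟨u' - N u, ?_⟩⟩⟩
          rw [map_sub, hu', ← Module.End.mul_apply, ← pow_succ]
        have := Y'.add_mem hmem2 hmem1
        rwa [sub_add_cancel] at this)
    have e3 := finrank_ker_inf_range N (a + c)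
    have e4 := finrank_ker_inf_range N (a + c + 1)
    have e5 := hb ν (a + c) (fun h => hnd ((pow_dvd_pow _ (by omega)).trans h))
    rw [← hN] at e5
    have e6 : a + c + 1 + 1 = a + c + 2 := rfl
    rw [e6] at e4
    omega

theorem comm_aeval (f g : End ℂ V) (q : ℂ[X]) (hg : g * f = f * g) :
    g * aeval f q = aeval f q * g := by
  induction q using Polynomial.induction_on' with
  | add p q hp hq => rw [map_add, mul_add, add_mul, hp, hq]
  | monomial m a =>
    rw [aeval_monomial, Algebra.algebraMap_eq_smul_one, smul_mul_assoc, one_mul, smul_mul_assoc,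
      mul_smul_comm]
    congr 1
    exact (Commute.pow_right hg m : _)

/-- one step of a chain of hyperinvariant subspaces above the kernel of `q(f)` -/
theorem step_ker [FiniteDimensional ℂ V] (f : End ℂ V) (q : ℂ[X]) (hq : q ≠ 0) (b : ℕ)
    (hb : BlockCond f q b) (K : Submodule ℂ V) (hK : Hyp f K)
    (hle : LinearMap.ker (aeval f q) ≤ K) (hne : K ≠ ⊤) :
    ∃ K1 : Submodule ℂ V, Hyp f K1 ∧ K ≤ K1 ∧ ¬ K1 ≤ K ∧ finrank ℂ K1 ≤ finrank ℂ K + b := by
  obtain ⟨Y, hY1, hY2, hY3, hY4, hY5⟩ := step f q hq b hb (K.map (aeval f q))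
    (by
      rintro g hg _ ⟨v, hv, rfl⟩
      refine ⟨g v, hK g hg v hv, ?_⟩
      exact (DFunLike.congr_fun (comm_aeval f g q hg) v).symm)
    (by
      rintro _ ⟨v, hv, rfl⟩
      exact ⟨v, rfl⟩)
    (by
      intro h
      apply hne
      rw [eq_top_iff]
      intro v _
      obtain ⟨k, hk, hkv⟩ := h (⟨v, rfl⟩ : aeval f q v ∈ LinearMap.range (aeval f q))
      have h1 : v - k ∈ K := hle (by rw [LinearMap.mem_ker, map_sub, hkv, sub_self])
      have := K.add_mem h1 hk
      rwa [sub_add_cancel] at this)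
  refine ⟨Y.comap (aeval f q), ?_, ?_, ?_, ?_⟩
  · intro g hg v hv
    rw [Submodule.mem_comap] at hv ⊢
    have h1 := hY1 g hg _ hv
    have h2 : g (aeval f q v) = aeval f q (g v) := DFunLike.congr_fun (comm_aeval f g q hg) v
    rwa [h2] at h1
  · intro v hv
    exact hY2 ⟨v, hv, rfl⟩
  · intro h
    apply hY3
    intro y hy
    obtain ⟨v, rfl⟩ := hY4 hy
    exact ⟨v, h hy, rfl⟩
  · have := quot_dim (aeval f q) (Y.comap (aeval f q)) K Y (K.map (aeval f q)) hY2
      (fun z hz => hz)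
      (by
        rintro z _ ⟨k, hk, hkv⟩
        have h1 : z - k ∈ K := hle (by rw [LinearMap.mem_ker, map_sub, hkv, sub_self])
        have := K.add_mem h1 hk
        rwa [sub_add_cancel] at this)
    omega

end Pool.Agent.H26.CH
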