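import Pool.Agent.H26.CH.Inv
import Pool.Agent.H26.CH.Step

/-!
# The nested filtration of `Q_j r(w) Q_k`
-/

set_option autoImplicit false

namespace Pool.Agent.H26.CH

open Module Polynomial

section Lin

variable {V : Type*} [AddCommGroup V] [Module ℂ V]

/-- the endomorphisms which map `K` into `Y` -/
def Mp (K Y : Submodule ℂ V) : Submodule ℂ (End ℂ V) where
  carrier := {a | ∀ v ∈ K, a v ∈ Y}
  add_mem' ha hb v hv := Y.add_mem (ha v hv) (hb v hv)
  zero_mem' _ _ := Y.zero_mem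
  smul_mem' c _ ha v hv := Y.smul_mem c (ha v hv)

theorem mem_Mp {K Y : Submodule ℂ V} {a : End ℂ V} : a ∈ Mp K Y ↔ ∀ v ∈ K, a v ∈ Y := Iff.rfl

theorem hom_dim [FiniteDimensional ℂ V] (H0 H1 : Submodule ℂ (End ℂ V))
    (K K1 Y Y1 : Submodule ℂ V) (hK : K ≤ K1) (hY : Y ≤ Y1)
    (h1 : ∀ a ∈ H1, ∀ v ∈ K, a v = 0) (h2 : ∀ a ∈ H1, ∀ v ∈ K1, a v ∈ Y1)
    (h3 : ∀ a ∈ H1, (∀ v ∈ K1, a v ∈ Y) → a ∈ H0) :
    finrank ℂ H1 ≤ finrank ℂ H0 + (finrank ℂ K1 - finrank ℂ K) * (finrank ℂ Y1 - finrank ℂ Y) := by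
  have hk : ∀ a : H1, K.comap K1.subtype ≤
      LinearMap.ker ((Y.comap Y1.subtype).mkQ ∘ₗ (a.1.restrict (h2 a.1 a.2))) := by
    intro a v hv
    rw [LinearMap.mem_ker]
    apply (Submodule.Quotient.mk_eq_zero (Y.comap Y1.subtype)).mpr
    change a.1 v.1 ∈ Y
    rw [h1 a.1 a.2 v.1 hv]
    exact Y.zero_mem
  let φ : H1 →ₗ[ℂ] ((K1 ⧸ K.comap K1.subtype) →ₗ[ℂ] (Y1 ⧸ Y.comap Y1.subtype)) :=
    { toFun := fun a => (K.comap K1.subtype).liftQ
        ((Y.comap Y1.subtype).mkQ ∘ₗ (a.1.restrict (h2 a.1 a.2))) (hk a)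
      map_add' := by
        intro a a'
        apply LinearMap.ext
        intro x
        obtain ⟨x, rfl⟩ := Submodule.mkQ_surjective _ x
        rfl
      map_smul' := by
        intro c a
        apply LinearMap.ext
        intro x
        obtain ⟨x, rfl⟩ := Submodule.mkQ_surjective _ x
        rfl }
  have e1 := LinearMap.finrank_range_add_finrank_ker φ
  have e2 : finrank ℂ (LinearMap.range φ) ≤
      finrank ℂ ((K1 ⧸ K.comap K1.subtype) →ₗ[ℂ] (Y1 ⧸ Y.comap Y1.subtype)) :=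
    Submodule.finrank_le _
  rw [Module.finrank_linearMap] at e2
  have e3 := Submodule.finrank_quotient_add_finrank (K.comap K1.subtype)
  have e4 : finrank ℂ (K.comap K1.subtype) = finrank ℂ K :=
    (Submodule.comapSubtypeEquivOfLe hK).finrank_eq
  have e5 := Submodule.finrank_quotient_add_finrank (Y.comap Y1.subtype)
  have e6 : finrank ℂ (Y.comap Y1.subtype) = finrank ℂ Y :=
    (Submodule.comapSubtypeEquivOfLe hY).finrank_eq
  have e7 : finrank ℂ (LinearMap.ker φ) ≤ finrank ℂ H0 := by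
    have hk : ∀ x : LinearMap.ker φ, (x.1.1 : End ℂ V) ∈ H0 := by
      intro x
      apply h3 _ x.1.2
      intro v hv
      have hx := x.2
      rw [LinearMap.mem_ker] at hx
      have h := DFunLike.congr_fun hx ((K.comap K1.subtype).mkQ ⟨v, hv⟩)
      have := (Submodule.Quotient.mk_eq_zero (Y.comap Y1.subtype)).mp h
      exact this
    let ψ : LinearMap.ker φ →ₗ[ℂ] H0 :=
      LinearMap.codRestrict H0 (H1.subtype ∘ₗ (LinearMap.ker φ).subtype) hk
    apply LinearMap.finrank_le_finrank_of_injective (f := ψ)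
    intro x y hxy
    have : (x.1.1 : End ℂ V) = y.1.1 := congrArg (fun t : H0 => (t : End ℂ V)) hxy
    exact Subtype.ext (Subtype.ext this)
  have e8 : finrank ℂ (K1 ⧸ K.comap K1.subtype) = finrank ℂ K1 - finrank ℂ K := by omega
  have e9 : finrank ℂ (Y1 ⧸ Y.comap Y1.subtype) = finrank ℂ Y1 - finrank ℂ Y := by omega
  rw [e8, e9] at e2
  omega

end Lin

section Triv

variable {n : ℕ} {E : Type*} [AddCommGroup E] [Module ℂ E]

/-- the transvections fixing `j`, `k` act trivially on `H1 / H0` -/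
def Triv (j k : Fin n) (c : MulAut (FreeGroup (Fin n)) → End ℂ E) (H1 H0 : Submodule ℂ E) :
    Prop :=
  ∀ p l : Fin n, p ≠ j → p ≠ k → l ≠ p → ∀ a ∈ H1, c (Rt p l) a - a ∈ H0

theorem Triv.glue {j k : Fin n} (hn : 5 ≤ n) {c : MulAut (FreeGroup (Fin n)) → End ℂ E}
    {H2 H1 H0 : Submodule ℂ E} (h12 : H1 ≤ H2) (h01 : H0 ≤ H1)
    (hm : ∀ σ τ, Fx j k σ → Fx j k τ → ∀ a ∈ H2, c (σ * τ) a = c σ (c τ a))
    (t2 : Triv j k c H2 H1) (t1 : Triv j k c H1 H0) : Triv j k c H2 H0 := by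
  intro p l hpj hpk hlp a ha
  obtain ⟨m, hmj, hmk, hmp, hml⟩ : ∃ q, q ≠ j ∧ q ≠ k ∧ q ≠ p ∧ q ≠ l := by
    by_contra hcon
    push Not at hcon
    have : (Finset.univ : Finset (Fin n)) ⊆ {j, k, p, l} := by
      intro m _
      by_cases h1 : m = j
      · simp [h1]
      · by_cases h2 : m = k
        · simp [h2]
        · by_cases h3 : m = p
          · simp [h3]
          · simp [hcon m h1 h2 h3]
    have h2 := Finset.card_le_card this
    have h3 : ({j, k, p, l} : Finset (Fin n)).card ≤ 4 := Finset.card_le_four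
    rw [Finset.card_univ, Fintype.card_fin] at h2
    omega
  have f1 : Fx j k (Rt m l) := Fx_Rt hml.symm hmj hmk
  have f2 : Fx j k (Rt p m) := Fx_Rt hmp hpj hpk
  have f3 : Fx j k (Rt p l) := Fx_Rt hlp hpj hpk
  set A := c (Rt m l) with hA
  set B := c (Rt p m) with hB
  set C := c (Rt p l) with hC
  have tA2 : ∀ x ∈ H2, A x - x ∈ H1 := t2 m l hmj hmk hml.symm
  have tB2 : ∀ x ∈ H2, B x - x ∈ H1 := t2 p m hpj hpk hmp
  have tC2 : ∀ x ∈ H2, C x - x ∈ H1 := t2 p l hpj hpk hlp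
  have tA1 : ∀ x ∈ H1, A x - x ∈ H0 := t1 m l hmj hmk hml.symm
  have tB1 : ∀ x ∈ H1, B x - x ∈ H0 := t1 p m hpj hpk hmp
  have tC1 : ∀ x ∈ H1, C x - x ∈ H0 := t1 p l hpj hpk hlp
  have hAa : A a ∈ H2 := by
    have := H2.add_mem (h12 (tA2 a ha)) ha
    rwa [sub_add_cancel] at this
  have hrel : A (B a) = B (C (A a)) := by
    rw [← hm _ _ f1 f2 a ha, Rt_Rt hmp hlp hml.symm, hm _ _ (f2.mul f3) f1 a ha,
      hm _ _ f2 f3 _ hAa]
  -- the small elements
  have s1 := tA1 _ (tB2 a ha)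
  have s2 := tC1 _ (tA2 a ha)
  have s3 := tB1 _ (tC2 a ha)
  have s4 := tB1 _ (tA2 a ha)
  have s5 : B (C (A a - a) - (A a - a)) ∈ H0 := by
    have := H0.add_mem (tB1 _ (h01 s2)) s2
    rwa [sub_add_cancel] at this
  have key : C a - a = (A (B a - a) - (B a - a)) - (B (C (A a - a) - (A a - a)))
      - (B (C a - a) - (C a - a)) - (B (A a - a) - (A a - a)) := by
    simp only [map_sub]
    rw [hrel]
    abel
  rw [key]
  exact H0.sub_mem (H0.sub_mem (H0.sub_mem s1 s5) s3) s4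

end Triv

section Main

variable {n : ℕ} {V : Type*} [AddCommGroup V] [Module ℂ V]

/-- the equivalence class of `r` is fixed by all automorphisms -/
def Char (r : FreeGroup (Fin n) →* End ℂ V) : Prop :=
  ∀ σ : MulAut (FreeGroup (Fin n)), ∃ g g' : End ℂ V, g * g' = 1 ∧ g' * g = 1 ∧
    ∀ w, r (σ w) = g * r w * g'

theorem nest [FiniteDimensional ℂ V] (r : FreeGroup (Fin n) →* End ℂ V) (hr : Char r)
    (q : ℂ[X]) (hq : q ≠ 0) (b : ℕ) (hn : 5 ≤ n) (hbn : b * b + 4 ≤ n) (j k : Fin n)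
    (hbj : BlockCond (r (FreeGroup.of j)) q b) (hbk : BlockCond (r (FreeGroup.of k)) q b)
    (p l : Fin n) (hpj : p ≠ j) (hpk : p ≠ k) (hlp : l ≠ p) (w : FreeGroup (Fin n)) :
    aeval (r (FreeGroup.of j)) q * r (Rt p l w) * aeval (r (FreeGroup.of k)) q =
      aeval (r (FreeGroup.of j)) q * r w * aeval (r (FreeGroup.of k)) q := by
  set fj := r (FreeGroup.of j) with hfj
  set fk := r (FreeGroup.of k) with hfk
  set Qj := aeval fj q with hQj
  set Qk := aeval fk q with hQk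
  choose g g' hg using hr
  have hgg : ∀ σ, g σ * g' σ = 1 := fun σ => (hg σ).1
  have hg'g : ∀ σ, g' σ * g σ = 1 := fun σ => (hg σ).2.1
  have hrg : ∀ σ w, r (σ w) = g σ * r w * g' σ := fun σ => (hg σ).2.2
  -- commutation
  have hcj : ∀ σ, Fx j k σ → g σ * fj = fj * g σ := by
    intro σ hσ
    have h1 := hrg σ (FreeGroup.of j)
    rw [hσ.1, ← hfj] at h1
    calc g σ * fj = g σ * fj * (g' σ * g σ) := by rw [hg'g, mul_one]
      _ = (g σ * fj * g' σ) * g σ := by simp only [mul_assoc]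
      _ = fj * g σ := by rw [← h1]
  have hck : ∀ σ, Fx j k σ → g σ * fk = fk * g σ := by
    intro σ hσ
    have h1 := hrg σ (FreeGroup.of k)
    rw [hσ.2, ← hfk] at h1
    calc g σ * fk = g σ * fk * (g' σ * g σ) := by rw [hg'g, mul_one]
      _ = (g σ * fk * g' σ) * g σ := by simp only [mul_assoc]
      _ = fk * g σ := by rw [← h1]
  have hck' : ∀ σ, Fx j k σ → g' σ * fk = fk * g' σ := by
    intro σ hσ
    calc g' σ * fk = g' σ * fk * (g σ * g' σ) := by rw [hgg, mul_one]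
      _ = g' σ * (fk * g σ) * g' σ := by simp only [mul_assoc]
      _ = (g' σ * g σ) * fk * g' σ := by rw [← hck σ hσ]; simp only [mul_assoc]
      _ = fk * g' σ := by rw [hg'g, one_mul]
  let c : MulAut (FreeGroup (Fin n)) → End ℂ (End ℂ V) := fun σ =>
    LinearMap.mulLeft ℂ (g σ) ∘ₗ LinearMap.mulRight ℂ (g' σ)
  have hc : ∀ σ a, c σ a = g σ * a * g' σ := by
    intro σ a
    simp only [c, LinearMap.comp_apply, LinearMap.mulLeft_apply, LinearMap.mulRight_apply,
      mul_assoc]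
  have hcw : ∀ σ, Fx j k σ → ∀ w, c σ (Qj * r w * Qk) = Qj * r (σ w) * Qk := by
    intro σ hσ w
    rw [hc, hrg]
    have e1 := comm_aeval fj (g σ) q (hcj σ hσ)
    have e2 := comm_aeval fk (g' σ) q (hck' σ hσ)
    calc g σ * (Qj * r w * Qk) * g' σ = (g σ * Qj) * r w * (Qk * g' σ) := by
          simp only [mul_assoc]
      _ = (Qj * g σ) * r w * (g' σ * Qk) := by rw [e1, e2]
      _ = Qj * (g σ * r w * g' σ) * Qk := by simp only [mul_assoc]
  let H : Submodule ℂ (End ℂ V) := Submodule.span ℂ (Set.range fun w => Qj * r w * Qk)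
  have hHw : ∀ w, Qj * r w * Qk ∈ H := fun w => Submodule.subset_span ⟨w, rfl⟩
  have hind : ∀ {P : End ℂ V → Prop}, (∀ w, P (Qj * r w * Qk)) → P 0 →
      (∀ a b, P a → P b → P (a + b)) → (∀ (c : ℂ) a, P a → P (c • a)) → ∀ a ∈ H, P a := by
    intro P h1 h2 h3 h4 a ha
    induction ha using Submodule.span_induction with
    | mem x hx => obtain ⟨w, rfl⟩ := hx; exact h1 w
    | zero => exact h2
    | add x y _ _ hx hy => exact h3 x y hx hy
    | smul c x _ hx => exact h4 c x hx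
  have hstab : ∀ σ, Fx j k σ → ∀ a ∈ H, c σ a ∈ H := by
    intro σ hσ
    apply hind
    · intro w; rw [hcw σ hσ]; exact hHw _
    · rw [map_zero]; exact H.zero_mem
    · intro a b ha hb; rw [map_add]; exact H.add_mem ha hb
    · intro x a ha; rw [map_smul]; exact H.smul_mem x ha
  have hmul : ∀ σ τ, Fx j k σ → Fx j k τ → ∀ a ∈ H, c (σ * τ) a = c σ (c τ a) := by
    intro σ τ hσ hτ
    apply hind
    · intro w; rw [hcw _ (hσ.mul hτ), hcw τ hτ, hcw σ hσ, MulAut.mul_apply]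
    · simp only [map_zero]
    · intro a b ha hb; simp only [map_add, ha, hb]
    · intro x a ha; simp only [map_smul, ha]
  have hone : ∀ a ∈ H, c 1 a = a := by
    apply hind
    · intro w; rw [hcw _ (Fx_one j k), MulAut.one_apply]
    · simp only [map_zero]
    · intro a b ha hb; simp only [map_add, ha, hb]
    · intro x a ha; simp only [map_smul, ha]
  have hker : ∀ a ∈ H, ∀ v ∈ LinearMap.ker Qk, a v = 0 := by
    apply hind
    · intro w v hv
      have hv' : Qk v = 0 := hv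
      rw [Module.End.mul_apply, hv', map_zero]
    · intro v _; rfl
    · intro a b ha hb v hv; rw [LinearMap.add_apply, ha v hv, hb v hv, add_zero]
    · intro x a ha v hv; rw [LinearMap.smul_apply, ha v hv, smul_zero]
  have hran : ∀ a ∈ H, ∀ v : V, a v ∈ LinearMap.range Qj := by
    apply hind
    · intro w v
      exact ⟨r w (Qk v), rfl⟩
    · intro v; exact Submodule.zero_mem _
    · intro a b ha hb v; exact Submodule.add_mem _ (ha v) (hb v)
    · intro x a ha v; exact Submodule.smul_mem _ x (ha v)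
  -- stability of the pieces
  have hMp : ∀ (K Y : Submodule ℂ V), Hyp fk K → Hyp fj Y → ∀ σ, Fx j k σ → ∀ a ∈ Mp K Y,
      c σ a ∈ Mp K Y := by
    intro K Y hK hY σ hσ a ha v hv
    rw [hc]
    exact hY _ (hcj σ hσ) _ (ha _ (hK _ (hck' σ hσ) v hv))
  have hYbot : Hyp fj (⊥ : Submodule ℂ V) := by
    intro g _ v hv
    rw [Submodule.mem_bot] at hv
    rw [hv, map_zero]; exact Submodule.zero_mem _
  have hYran : Hyp fj (LinearMap.range Qj) := by
    rintro g hg _ ⟨v, rfl⟩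
    exact ⟨g v, (DFunLike.congr_fun (comm_aeval fj g q hg) v).symm⟩
  have hKker : Hyp fk (LinearMap.ker Qk) := by
    intro g hg v hv
    have hv' : Qk v = 0 := hv
    have := DFunLike.congr_fun (comm_aeval fk g q hg) v
    rw [Module.End.mul_apply, Module.End.mul_apply, hv', map_zero] at this
    exact this.symm
  -- the inner induction
  have inner : ∀ (K K1 : Submodule ℂ V), Hyp fk K → Hyp fk K1 → K ≤ K1 →
      finrank ℂ K1 ≤ finrank ℂ K + b → ∀ (m : ℕ) (Y : Submodule ℂ V), Hyp fj Y →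
      Y ≤ LinearMap.range Qj → finrank ℂ (LinearMap.range Qj) ≤ finrank ℂ Y + m →
      Triv j k c (H ⊓ Mp K ⊥ ⊓ Mp K1 Y) (H ⊓ Mp K1 ⊥) →
      Triv j k c (H ⊓ Mp K ⊥) (H ⊓ Mp K1 ⊥) := by
    intro K K1 hK hK1 hle hfr m
    induction m with
    | zero =>
      intro Y hY hYr hYf ht
      have hYe : Y = LinearMap.range Qj := Submodule.eq_of_le_of_finrank_le hYr (by omega)
      intro p l hpj hpk hlp a ha
      apply ht p l hpj hpk hlp a
      refine ⟨ha, ?_⟩
      intro v _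
      rw [hYe]
      exact hran a ha.1 v
    | succ m ih =>
      intro Y hY hYr hYf ht
      by_cases hcase : LinearMap.range Qj ≤ Y
      · intro p l hpj hpk hlp a ha
        apply ht p l hpj hpk hlp a
        refine ⟨ha, ?_⟩
        intro v _
        exact hcase (hran a ha.1 v)
      · obtain ⟨Y1, hY1, hYY1, hne, hY1r, hY1f⟩ := step fj q hq b hbj Y hY hYr hcase
        have hlt : finrank ℂ Y < finrank ℂ Y1 := by
          apply Submodule.finrank_lt_finrank_of_lt
          exact lt_of_le_not_ge hYY1 hne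
        apply ih Y1 hY1 hY1r (by omega)
        have hsub : H ⊓ Mp K ⊥ ⊓ Mp K1 Y ≤ H ⊓ Mp K ⊥ ⊓ Mp K1 Y1 := by
          intro a ha
          exact ⟨ha.1, fun v hv => hYY1 (ha.2 v hv)⟩
        have hsub' : H ⊓ Mp K1 ⊥ ≤ H ⊓ Mp K ⊥ ⊓ Mp K1 Y := by
          intro a ha
          refine ⟨⟨ha.1, fun v hv => ha.2 v (hle hv)⟩, fun v hv => ?_⟩
          have := ha.2 v hv
          rw [Submodule.mem_bot] at this
          rw [this]; exact Y.zero_mem
        refine Triv.glue hn hsub hsub' (fun σ τ hσ hτ a ha => hmul σ τ hσ hτ a ha.1.1) ?_ ht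
        intro p l hpj hpk hlp a ha
        refine small_rel j k c _ _ hsub ?_ ?_ (fun a ha => hone a ha.1.1)
          (fun σ τ hσ hτ a ha => hmul σ τ hσ hτ a ha.1.1) ?_ p l hpj hpk hlp a ha
        · intro σ hσ a ha
          exact ⟨⟨hstab σ hσ a ha.1.1, hMp K ⊥ hK hYbot σ hσ a ha.1.2⟩,
            hMp K1 Y hK1 hY σ hσ a ha.2⟩
        · intro σ hσ a ha
          exact ⟨⟨hstab σ hσ a ha.1.1, hMp K ⊥ hK hYbot σ hσ a ha.1.2⟩,
            hMp K1 Y1 hK1 hY1 σ hσ a ha.2⟩
        · have := hom_dim (H ⊓ Mp K ⊥ ⊓ Mp K1 Y) (H ⊓ Mp K ⊥ ⊓ Mp K1 Y1) K K1 Y Y1 hle hYY1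
            (fun a ha v hv => (Submodule.mem_bot ℂ).mp (ha.1.2 v hv))
            (fun a ha => ha.2) (fun a ha h => ⟨ha.1, h⟩)
          have h2 : (finrank ℂ K1 - finrank ℂ K) * (finrank ℂ Y1 - finrank ℂ Y) ≤ b * b :=
            Nat.mul_le_mul (by omega) (by omega)
          omega
  -- the outer induction
  have outer : ∀ (m : ℕ) (K : Submodule ℂ V), Hyp fk K → LinearMap.ker Qk ≤ K →
      finrank ℂ V ≤ finrank ℂ K + m → Triv j k c H (H ⊓ Mp K ⊥) → Triv j k c H ⊥ := by
    intro m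
    induction m with
    | zero =>
      intro K hK hKk hKf ht
      have hKe : K = ⊤ := Submodule.eq_top_of_finrank_eq (le_antisymm (Submodule.finrank_le _)
        (by omega))
      intro p l hpj hpk hlp a ha
      have := (ht p l hpj hpk hlp a ha).2
      rw [Submodule.mem_bot]
      apply LinearMap.ext
      intro v
      exact (Submodule.mem_bot ℂ).mp (this v (by rw [hKe]; exact Submodule.mem_top))
    | succ m ih =>
      intro K hK hKk hKf ht
      by_cases hcase : K = ⊤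
      · intro p l hpj hpk hlp a ha
        have := (ht p l hpj hpk hlp a ha).2
        rw [Submodule.mem_bot]
        apply LinearMap.ext
        intro v
        exact (Submodule.mem_bot ℂ).mp (this v (by rw [hcase]; exact Submodule.mem_top))
      · obtain ⟨K1, hK1, hKK1, hne, hK1f⟩ := step_ker fk q hq b hbk K hK hKk hcase
        have hlt : finrank ℂ K < finrank ℂ K1 := by
          apply Submodule.finrank_lt_finrank_of_lt
          exact lt_of_le_not_ge hKK1 hne
        apply ih K1 hK1 (hKk.trans hKK1) (by omega)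
        have hsub : H ⊓ Mp K ⊥ ≤ H := inf_le_left
        have hsub' : H ⊓ Mp K1 ⊥ ≤ H ⊓ Mp K ⊥ := by
          intro a ha
          exact ⟨ha.1, fun v hv => ha.2 v (hKK1 hv)⟩
        refine Triv.glue hn hsub hsub' hmul ht ?_
        apply inner K K1 hK hK1 hKK1 hK1f (finrank ℂ (LinearMap.range Qj)) ⊥ hYbot bot_le
          (by omega)
        intro p l hpj hpk hlp a ha
        have f : Fx j k (Rt p l) := Fx_Rt hlp hpj hpk
        refine ⟨H.sub_mem (hstab _ f a ha.1.1) ha.1.1, ?_⟩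
        exact (Mp K1 ⊥).sub_mem (hMp K1 ⊥ hK1 hYbot _ f a ha.2) ha.2
  have hfin := outer (finrank ℂ V) (LinearMap.ker Qk) hKker le_rfl (by omega) (by
    intro p l hpj hpk hlp a ha
    have f : Fx j k (Rt p l) := Fx_Rt hlp hpj hpk
    refine ⟨H.sub_mem (hstab _ f a ha) ha, ?_⟩
    intro v hv
    rw [Submodule.mem_bot]
    exact hker _ (H.sub_mem (hstab _ f a ha) ha) v hv)
  have := hfin p l hpj hpk hlp _ (hHw w)
  rw [Submodule.mem_bot, hcw _ (Fx_Rt hlp hpj hpk), sub_eq_zero] at this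
  exact this

end Main

end Pool.Agent.H26.CH
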