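import Mathlib

/-!
# Groups of elements `g` with `(g - 1)² = 0` in a ring
-/

set_option autoImplicit false

namespace Pool.Agent.H26.CH

theorem sq_aba {G R : Type*} [Group G] [Ring R] (θ : G →* R)
    (h : ∀ g, (θ g - 1) * (θ g - 1) = 0) (a b : G) :
    (θ a - 1) * (θ b - 1) * (θ a - 1) = 0 := by
  set A := θ a - 1 with hA
  set B := θ b - 1 with hB
  have h1 : A * A = 0 := h a
  have h2 : B * B = 0 := h b
  have h3 : (A + B + A * B) * (A + B + A * B) = 0 := by
    have : A + B + A * B = θ (a * b) - 1 := by
      rw [map_mul, hA, hB]; noncomm_ring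
    rw [this]; exact h (a * b)
  have h4 : A * B * A * θ b = 0 := by
    have e1 : A * ((A + B + A * B) * (A + B + A * B)) = 0 := by rw [h3, mul_zero]
    have e2 : A * ((A + B + A * B) * (A + B + A * B)) =
        (A * A) * (A + B + A * B) + (A * B * A * (1 + B)) + A * (B * B)
        + (A * A) * (B * (A + B + A * B)) := by noncomm_ring
    have e3 : θ b = 1 + B := by rw [hB]; noncomm_ring
    rw [e2, h1, h2] at e1
    rw [e3]
    simpa using e1
  calc A * B * A = A * B * A * (θ b * θ b⁻¹) := by rw [← map_mul, mul_inv_cancel, map_one, mul_one]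
    _ = (A * B * A * θ b) * θ b⁻¹ := by simp only [mul_assoc]
    _ = 0 := by rw [h4, zero_mul]

theorem sq_anti {G R : Type*} [Group G] [Ring R] (θ : G →* R)
    (h : ∀ g, (θ g - 1) * (θ g - 1) = 0) (a b : G) :
    (θ a - 1) * (θ b - 1) + (θ b - 1) * (θ a - 1) = 0 := by
  have h4 := sq_aba θ h a b
  have h5 := sq_aba θ h b a
  set A := θ a - 1 with hA
  set B := θ b - 1 with hB
  have h1 : A * A = 0 := h a
  have h2 : B * B = 0 := h b
  have h3 : (A + B + A * B) * (A + B + A * B) = 0 := by
    have : A + B + A * B = θ (a * b) - 1 := by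
      rw [map_mul, hA, hB]; noncomm_ring
    rw [this]; exact h (a * b)
  have e2 : (A + B + A * B) * (A + B + A * B) =
      (A * B + B * A) + A * A + B * B + A * A * B + B * A * B + A * B * A + A * (B * B)
      + A * B * A * B := by noncomm_ring
  rw [e2, h1, h2, h4, h5] at h3
  simpa using h3

theorem sq_triple {G R : Type*} [Group G] [Ring R] (θ : G →* R)
    (h2 : ∀ x : R, x + x = 0 → x = 0)
    (h : ∀ g, (θ g - 1) * (θ g - 1) = 0) (a b c : G) :
    (θ a - 1) * (θ b - 1) * (θ c - 1) = 0 := by
  have e1 := sq_anti θ h a c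
  have e2 := sq_anti θ h b c
  have e3 := sq_anti θ h (a * b) c
  set A := θ a - 1 with hA
  set B := θ b - 1 with hB
  set C := θ c - 1 with hC
  have e4 : θ (a * b) - 1 = A + B + A * B := by
    rw [map_mul, hA, hB]; noncomm_ring
  rw [e4] at e3
  have e5 : A * B * C + C * A * B = 0 := by
    have : A * B * C + C * A * B = ((A + B + A * B) * C + C * (A + B + A * B)) - (A * C + C * A)
        - (B * C + C * B) := by noncomm_ring
    rw [this, e1, e2, e3]; simp
  have e6 : C * A * B = A * B * C := by
    have : C * A * B - A * B * C = (A * C + C * A) * B - A * (B * C + C * B) := by noncomm_ring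
    rw [e1, e2] at this
    simpa [sub_eq_zero] using this
  rw [e6] at e5
  exact h2 _ e5

end Pool.Agent.H26.CH
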