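import Pool.Agent.H26.CH.Trv
import Pool.Agent.H26.CH.Ring

/-!
# Vectors killed by a quadratic polynomial in all the primitive elements off two letters
-/

set_option autoImplicit false

namespace Pool.Agent.H26.CH

open Module

variable {n : ℕ} {M : Type*} [AddCommGroup M] [Module ℂ M]

/-- the automorphisms fixing the letters in `S` -/
def FxS (S : Finset (Fin n)) (ψ : MulAut (FreeGroup (Fin n))) : Prop :=
  ∀ i ∈ S, ψ (FreeGroup.of i) = FreeGroup.of i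

theorem FxS.mul {S : Finset (Fin n)} {σ τ : MulAut (FreeGroup (Fin n))} (hσ : FxS S σ)
    (hτ : FxS S τ) : FxS S (σ * τ) := by
  intro i hi
  rw [MulAut.mul_apply, hτ i hi, hσ i hi]

/-- `y` is killed by `t² - τ t + δ` at every primitive element `ψ x_j`, `j ∉ S`, where `ψ`
fixes the letters in `S` -/
def Good (ρ : FreeGroup (Fin n) →* End ℂ M) (τ δ : ℂ) (S : Finset (Fin n)) (y : M) : Prop :=
  ∀ ψ : MulAut (FreeGroup (Fin n)), FxS S ψ → ∀ j : Fin n, j ∉ S →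
    ρ (ψ (FreeGroup.of j)) (ρ (ψ (FreeGroup.of j)) y) - τ • ρ (ψ (FreeGroup.of j)) y + δ • y = 0

/-- `z` is killed by the polynomial at every `u x_j w`, `u, w ∈ H_j` -/
def Zs (ρ : FreeGroup (Fin n) →* End ℂ M) (τ δ : ℂ) (j : Fin n) : Submodule ℂ M where
  carrier := {z | ∀ u ∈ Hs j, ∀ w ∈ Hs j,
    ρ (u * FreeGroup.of j * w) (ρ (u * FreeGroup.of j * w) z)
      - τ • ρ (u * FreeGroup.of j * w) z + δ • z = 0}
  add_mem' := by
    intro a b ha hb u hu w hw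
    have h1 := ha u hu w hw
    have h2 := hb u hu w hw
    simp only [map_add, smul_add]
    have : ∀ p q r p' q' r' : M, p - q + r = 0 → p' - q' + r' = 0 →
        (p + p') - (q + q') + (r + r') = 0 := by
      intro p q r p' q' r' e1 e2
      have : (p + p') - (q + q') + (r + r') = (p - q + r) + (p' - q' + r') := by abel
      rw [this, e1, e2, add_zero]
    exact this _ _ _ _ _ _ h1 h2
  zero_mem' := by
    intro u _ w _
    simp
  smul_mem' := by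
    intro c a ha u hu w hw
    have h1 := ha u hu w hw
    simp only [map_smul]
    rw [smul_comm τ c, smul_comm δ c, ← smul_sub, ← smul_add, h1, smul_zero]

theorem mul_app (ρ : FreeGroup (Fin n) →* End ℂ M) (u w : FreeGroup (Fin n)) (z : M) :
    ρ (u * w) z = ρ u (ρ w z) := by
  rw [map_mul, Module.End.mul_apply]

theorem inv_app (ρ : FreeGroup (Fin n) →* End ℂ M) (w : FreeGroup (Fin n)) (z : M) :
    ρ w⁻¹ (ρ w z) = z := by
  rw [← mul_app, inv_mul_cancel, map_one]; rfl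

theorem inv_app' (ρ : FreeGroup (Fin n) →* End ℂ M) (w : FreeGroup (Fin n)) (z : M) :
    ρ w (ρ w⁻¹ z) = z := by
  rw [← mul_app, mul_inv_cancel, map_one]; rfl

theorem Good.mem_Zs {ρ : FreeGroup (Fin n) →* End ℂ M} {τ δ : ℂ} {S : Finset (Fin n)} {y : M}
    (h : Good ρ τ δ S y) {j : Fin n} (hj : j ∉ S) : y ∈ Zs ρ τ δ j := by
  intro u hu w hw
  have hf : FxS S (trv j u w hu hw) := by
    intro i hi
    have hij : i ≠ j := by
      intro h'
      exact hj (h' ▸ hi)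
    exact trv_ne hij u w hu hw
  have := h _ hf j hj
  rw [trv_self] at this
  exact this

theorem Zs_stable {ρ : FreeGroup (Fin n) →* End ℂ M} {τ δ : ℂ} {j : Fin n} {h : FreeGroup (Fin n)}
    (hh : h ∈ Hs j) {z : M} (hz : z ∈ Zs ρ τ δ j) : ρ h z ∈ Zs ρ τ δ j := by
  intro u hu w hw
  have h1 := hz (h⁻¹ * u) ((Hs j).mul_mem ((Hs j).inv_mem hh) hu) (w * h)
    ((Hs j).mul_mem hw hh)
  have e1 : u * FreeGroup.of j * w * h = h * (h⁻¹ * u * FreeGroup.of j * (w * h)) := by group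
  have e2 : ∀ v, ρ (u * FreeGroup.of j * w) (ρ h v) =
      ρ h (ρ (h⁻¹ * u * FreeGroup.of j * (w * h)) v) := by
    intro v
    rw [← mul_app, ← mul_app, e1]
  have e3 := congrArg (ρ h) h1
  rw [map_add, map_sub, map_smul, map_smul, map_zero] at e3
  rw [e2, e2]
  exact e3

/-- the basic identity -/
theorem Zs_B {ρ : FreeGroup (Fin n) →* End ℂ M} {τ δ : ℂ} {j : Fin n} {z : M}
    (hz : z ∈ Zs ρ τ δ j) {w : FreeGroup (Fin n)} (hw : w ∈ Hs j) :
    ρ (FreeGroup.of j) (ρ w z) = ρ w⁻¹ (ρ (FreeGroup.of j) z) + τ • (z - ρ w⁻¹ z) := by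
  have h1 := hz 1 (one_mem _) w hw
  have h2 := hz 1 (one_mem _) 1 (one_mem _)
  rw [one_mul] at h1
  rw [one_mul, mul_one] at h2
  -- multiply by the inverses
  have e1 : ρ (FreeGroup.of j * w) z - τ • z + δ • ρ (FreeGroup.of j * w)⁻¹ z = 0 := by
    have := congrArg (ρ (FreeGroup.of j * w)⁻¹) h1
    rw [map_zero, map_add, map_sub, map_smul, map_smul, inv_app, inv_app] at this
    exact this
  have e2 : ρ (FreeGroup.of j) z - τ • z + δ • ρ (FreeGroup.of j)⁻¹ z = 0 := by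
    have := congrArg (ρ (FreeGroup.of j)⁻¹) h2
    rw [map_zero, map_add, map_sub, map_smul, map_smul, inv_app, inv_app] at this
    exact this
  have e3 := congrArg (ρ w⁻¹) e2
  rw [map_zero, map_add, map_sub, map_smul, map_smul] at e3
  rw [mul_app, mul_inv_rev, mul_app] at e1
  have : ρ (FreeGroup.of j) (ρ w z) - (ρ w⁻¹ (ρ (FreeGroup.of j) z) + τ • (z - ρ w⁻¹ z)) =
      (ρ (FreeGroup.of j) (ρ w z) - τ • z + δ • ρ w⁻¹ (ρ (FreeGroup.of j)⁻¹ z)) -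
      (ρ w⁻¹ (ρ (FreeGroup.of j) z) - τ • ρ w⁻¹ z + δ • ρ w⁻¹ (ρ (FreeGroup.of j)⁻¹ z)) := by
    rw [smul_sub]; abel
  rw [e1, e3, sub_zero] at this
  exact sub_eq_zero.mp this

theorem Zs_sq {ρ : FreeGroup (Fin n) →* End ℂ M} {τ δ : ℂ} (hτ : τ ≠ 0) {j : Fin n} {z : M}
    (hz : z ∈ Zs ρ τ δ j) {w : FreeGroup (Fin n)} (hw : w ∈ Hs j) :
    ρ w (ρ w z) - ρ w z - (ρ w z - z) = 0 := by
  have h1 := Zs_B (Zs_stable hw hz) hw
  have h2 := Zs_B hz hw
  have h3 := Zs_B hz ((Hs j).mul_mem hw hw)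
  rw [mul_app, h1, h2, mul_inv_rev, mul_app] at h3
  have e : ∀ v : M, ρ w⁻¹ (ρ w v) = v := inv_app ρ w
  have e' : ∀ v : M, ρ w (ρ w⁻¹ v) = v := inv_app' ρ w
  simp only [map_add, map_smul, map_sub, mul_app, e] at h3
  have h4 : τ • (ρ w z - z - (z - ρ w⁻¹ z)) = 0 := by
    have h5 := sub_eq_zero.mpr h3
    have : τ • (ρ w z - z - (z - ρ w⁻¹ z)) =
      ρ w⁻¹ (ρ w⁻¹ (ρ (FreeGroup.of j) z)) + τ • (ρ w⁻¹ z - ρ w⁻¹ (ρ w⁻¹ z)) + τ • (ρ w z - z) -
        (ρ w⁻¹ (ρ w⁻¹ (ρ (FreeGroup.of j) z)) + τ • (z - ρ w⁻¹ (ρ w⁻¹ z))) := by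
      simp only [smul_sub]; abel
    rw [this]; exact h5
  have h5 := (smul_eq_zero.mp h4).resolve_left hτ
  have h6 := congrArg (ρ w) h5
  rw [map_zero, map_sub, map_sub, map_sub, e'] at h6
  exact h6

/-- the action of `H_j` on `Zs` -/
def resZ (ρ : FreeGroup (Fin n) →* End ℂ M) (τ δ : ℂ) (j : Fin n) :
    Hs j →* End ℂ (Zs ρ τ δ j) where
  toFun h := (ρ h.1).restrict (fun _ hz => Zs_stable h.2 hz)
  map_one' := by
    apply LinearMap.ext; intro x; apply Subtype.ext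
    change ρ ((1 : Hs j) : FreeGroup (Fin n)) x.1 = x.1
    rw [Subgroup.coe_one, map_one]; rfl
  map_mul' := by
    intro a b
    apply LinearMap.ext; intro x; apply Subtype.ext
    change ρ ((a * b : Hs j) : FreeGroup (Fin n)) x.1 = ρ a.1 (ρ b.1 x.1)
    rw [Subgroup.coe_mul, mul_app]

theorem resZ_apply (ρ : FreeGroup (Fin n) →* End ℂ M) (τ δ : ℂ) (j : Fin n) (h : Hs j)
    (x : Zs ρ τ δ j) : ((resZ ρ τ δ j h x : Zs ρ τ δ j) : M) = ρ h.1 x.1 := rfl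

theorem resZ_sq (ρ : FreeGroup (Fin n) →* End ℂ M) {τ δ : ℂ} (hτ : τ ≠ 0) (j : Fin n) (h : Hs j) :
    (resZ ρ τ δ j h - 1) * (resZ ρ τ δ j h - 1) = 0 := by
  apply LinearMap.ext; intro x; apply Subtype.ext
  have := Zs_sq hτ x.2 h.2
  rw [Module.End.mul_apply]
  simp only [LinearMap.sub_apply, Module.End.one_apply, map_sub, AddSubgroupClass.coe_sub,
    resZ_apply, LinearMap.zero_apply, ZeroMemClass.coe_zero]
  exact this

theorem end_two {A : Type*} [AddCommGroup A] [Module ℂ A] (x : A) (h : x + x = 0) : x = 0 := by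
  have h2 : (2 : ℂ) • x = 0 := by rw [two_smul]; exact h
  exact (smul_eq_zero.mp h2).resolve_left two_ne_zero

/-- `ρ(w) - 1` -/
def Nn (ρ : FreeGroup (Fin n) →* End ℂ M) (w : FreeGroup (Fin n)) (z : M) : M := ρ w z - z

theorem Nn_add (ρ : FreeGroup (Fin n) →* End ℂ M) (w : FreeGroup (Fin n)) (x y : M) :
    Nn ρ w (x + y) = Nn ρ w x + Nn ρ w y := by
  simp only [Nn, map_add]; abel

theorem Nn_mul (ρ : FreeGroup (Fin n) →* End ℂ M) (u w : FreeGroup (Fin n)) (x : M) :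
    Nn ρ (u * w) x = Nn ρ u x + Nn ρ w x + Nn ρ u (Nn ρ w x) := by
  simp only [Nn, mul_app, map_sub]; abel

theorem Nn_zero (ρ : FreeGroup (Fin n) →* End ℂ M) (w : FreeGroup (Fin n)) :
    Nn ρ w 0 = 0 := by
  simp [Nn]

theorem Zs_anti {ρ : FreeGroup (Fin n) →* End ℂ M} {τ δ : ℂ} (hτ : τ ≠ 0) {j : Fin n} {z : M}
    (hz : z ∈ Zs ρ τ δ j) {a b : FreeGroup (Fin n)} (ha : a ∈ Hs j) (hb : b ∈ Hs j) :
    Nn ρ a (Nn ρ b z) + Nn ρ b (Nn ρ a z) = 0 := by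
  have := sq_anti (resZ ρ τ δ j) (resZ_sq ρ hτ j) ⟨a, ha⟩ ⟨b, hb⟩
  have h2 := congrArg Subtype.val (DFunLike.congr_fun this ⟨z, hz⟩)
  simp only [LinearMap.add_apply, Module.End.mul_apply, LinearMap.sub_apply, Module.End.one_apply,
    map_sub, AddSubgroupClass.coe_sub, Submodule.coe_add, resZ_apply, LinearMap.zero_apply,
    ZeroMemClass.coe_zero] at h2
  simp only [Nn, map_sub]
  rw [← h2]
  abel

theorem Zs_triple {ρ : FreeGroup (Fin n) →* End ℂ M} {τ δ : ℂ} (hτ : τ ≠ 0) {j : Fin n} {z : M}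
    (hz : z ∈ Zs ρ τ δ j) {a b c : FreeGroup (Fin n)} (ha : a ∈ Hs j) (hb : b ∈ Hs j)
    (hc : c ∈ Hs j) : Nn ρ a (Nn ρ b (Nn ρ c z)) = 0 := by
  have := sq_triple (resZ ρ τ δ j) (fun x h => end_two x h) (resZ_sq ρ hτ j) ⟨a, ha⟩ ⟨b, hb⟩
    ⟨c, hc⟩
  have h2 := congrArg Subtype.val (DFunLike.congr_fun this ⟨z, hz⟩)
  simp only [Module.End.mul_apply, LinearMap.sub_apply, Module.End.one_apply,
    map_sub, AddSubgroupClass.coe_sub, resZ_apply, LinearMap.zero_apply,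
    ZeroMemClass.coe_zero] at h2
  simp only [Nn, map_sub]
  rw [← h2]
  abel

theorem exists_off {n : ℕ} (S : Finset (Fin n)) (h : S.card < n) : ∃ j, j ∉ S := by
  by_contra hcon
  push Not at hcon
  have : (Finset.univ : Finset (Fin n)) ⊆ S := fun m _ => hcon m
  have h2 := Finset.card_le_card this
  rw [Finset.card_univ, Fintype.card_fin] at h2
  omega

theorem off2 {S : Finset (Fin n)} (hS : S.card + 3 ≤ n) (a b : Fin n) :
    ∃ j, j ∉ S ∧ j ≠ a ∧ j ≠ b := by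
  obtain ⟨j, hj⟩ := exists_off (insert a (insert b S))
    (lt_of_le_of_lt ((Finset.card_insert_le _ _).trans
      (Nat.add_le_add_right (Finset.card_insert_le _ _) 1)) (by omega))
  simp only [Finset.mem_insert, not_or] at hj
  exact ⟨j, hj.2.2, hj.1, hj.2.1⟩

theorem Good.comp {ρ : FreeGroup (Fin n) →* End ℂ M} {τ δ : ℂ} {S : Finset (Fin n)} {y : M}
    (h : Good ρ τ δ S y) (ψ : MulAut (FreeGroup (Fin n))) (hψ : FxS S ψ) :
    Good (ρ.comp ψ.toMonoidHom) τ δ S y := by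
  intro φ hφ j hj
  exact h (ψ * φ) (hψ.mul hφ) j hj

theorem Good.pair {ρ : FreeGroup (Fin n) →* End ℂ M} {τ δ : ℂ} (hτ : τ ≠ 0)
    {S : Finset (Fin n)} (hS : S.card + 3 ≤ n) {y : M} (h : Good ρ τ δ S y) (a b : Fin n) :
    Nn ρ (FreeGroup.of a) (Nn ρ (FreeGroup.of b) y) +
      Nn ρ (FreeGroup.of b) (Nn ρ (FreeGroup.of a) y) = 0 := by
  obtain ⟨j, hj, hja, hjb⟩ := off2 hS a b
  exact Zs_anti hτ (h.mem_Zs hj) (of_mem_Hs hja.symm) (of_mem_Hs hjb.symm)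

theorem Good.rot {ρ : FreeGroup (Fin n) →* End ℂ M} {τ δ : ℂ} (hτ : τ ≠ 0)
    {S : Finset (Fin n)} (hS : S.card + 3 ≤ n) {y : M} (h : Good ρ τ δ S y) (a b c : Fin n)
    (hab : a ≠ b) (hac : a ≠ c) (haS : a ∉ S) :
    Nn ρ (FreeGroup.of a) (Nn ρ (FreeGroup.of b) (Nn ρ (FreeGroup.of c) y)) +
      Nn ρ (FreeGroup.of c) (Nn ρ (FreeGroup.of a) (Nn ρ (FreeGroup.of b) y)) = 0 := by
  have hfx : FxS S (Rt a b) := by
    intro i hi
    have hia : i ≠ a := by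
      intro h'
      exact haS (h' ▸ hi)
    exact Rt_ne hab.symm hia
  have h1 := (h.comp (Rt a b) hfx).pair hτ hS a c
  have h2 := h.pair hτ hS a c
  have h3 := h.pair hτ hS b c
  have e1 : ∀ v, Nn (ρ.comp (Rt a b).toMonoidHom) (FreeGroup.of a) v =
      Nn ρ (FreeGroup.of a * FreeGroup.of b) v := by
    intro v
    simp only [Nn, MonoidHom.comp_apply]
    rw [show (Rt a b).toMonoidHom (FreeGroup.of a) = FreeGroup.of a * FreeGroup.of b from
      Rt_self hab.symm]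
  have e2 : ∀ v, Nn (ρ.comp (Rt a b).toMonoidHom) (FreeGroup.of c) v =
      Nn ρ (FreeGroup.of c) v := by
    intro v
    simp only [Nn, MonoidHom.comp_apply]
    rw [show (Rt a b).toMonoidHom (FreeGroup.of c) = FreeGroup.of c from
      Rt_ne hab.symm hac.symm]
  rw [e2, e1, e1, e2, Nn_mul, Nn_mul, Nn_add, Nn_add] at h1
  have : Nn ρ (FreeGroup.of a) (Nn ρ (FreeGroup.of b) (Nn ρ (FreeGroup.of c) y)) +
      Nn ρ (FreeGroup.of c) (Nn ρ (FreeGroup.of a) (Nn ρ (FreeGroup.of b) y)) =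
      (Nn ρ (FreeGroup.of a) (Nn ρ (FreeGroup.of c) y) +
        Nn ρ (FreeGroup.of b) (Nn ρ (FreeGroup.of c) y) +
        Nn ρ (FreeGroup.of a) (Nn ρ (FreeGroup.of b) (Nn ρ (FreeGroup.of c) y)) +
        (Nn ρ (FreeGroup.of c) (Nn ρ (FreeGroup.of a) y) +
        Nn ρ (FreeGroup.of c) (Nn ρ (FreeGroup.of b) y) +
        Nn ρ (FreeGroup.of c) (Nn ρ (FreeGroup.of a) (Nn ρ (FreeGroup.of b) y)))) -
      (Nn ρ (FreeGroup.of a) (Nn ρ (FreeGroup.of c) y) +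
      Nn ρ (FreeGroup.of c) (Nn ρ (FreeGroup.of a) y)) -
      (Nn ρ (FreeGroup.of b) (Nn ρ (FreeGroup.of c) y) +
      Nn ρ (FreeGroup.of c) (Nn ρ (FreeGroup.of b) y)) := by abel
  rw [this, h1, h2, h3]
  simp

theorem Good.triple {ρ : FreeGroup (Fin n) →* End ℂ M} {τ δ : ℂ} (hτ : τ ≠ 0)
    {S : Finset (Fin n)} (hS : S.card + 3 ≤ n) {y : M} (h : Good ρ τ δ S y) (a b c : Fin n) :
    Nn ρ (FreeGroup.of a) (Nn ρ (FreeGroup.of b) (Nn ρ (FreeGroup.of c) y)) = 0 := by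
  by_cases hj : ∃ j, j ∉ S ∧ j ≠ a ∧ j ≠ b ∧ j ≠ c
  · obtain ⟨j, hj, hja, hjb, hjc⟩ := hj
    exact Zs_triple hτ (h.mem_Zs hj) (of_mem_Hs hja.symm) (of_mem_Hs hjb.symm)
      (of_mem_Hs hjc.symm)
  · push Not at hj
    -- the three letters are distinct and off `S`
    have key : ∀ x y z : Fin n, (∀ j, j ∉ S → j ≠ x → j ≠ y → j = z) → z ∉ S ∧ z ≠ x ∧ z ≠ y := by
      intro x y z hall
      obtain ⟨j, hj, hjx, hjy⟩ := off2 hS x y
      have := hall j hj hjx hjy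
      rw [← this]
      exact ⟨hj, hjx, hjy⟩
    have hc := key a b c hj
    have hb := key a c b (fun j h1 h2 h3 => by
      by_contra h4
      exact h3 (hj j h1 h2 h4))
    have ha := key b c a (fun j h1 h2 h3 => by
      by_contra h4
      exact h3 (hj j h1 h4 h2))
    have r1 := h.rot hτ hS a b c ha.2.1 ha.2.2 ha.1
    have r2 := h.rot hτ hS c a b hc.2.1 hc.2.2 hc.1
    have r3 := h.rot hτ hS b c a hb.2.2 hb.2.1 hb.1
    apply end_two
    have : Nn ρ (FreeGroup.of a) (Nn ρ (FreeGroup.of b) (Nn ρ (FreeGroup.of c) y)) +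
        Nn ρ (FreeGroup.of a) (Nn ρ (FreeGroup.of b) (Nn ρ (FreeGroup.of c) y)) =
      (Nn ρ (FreeGroup.of a) (Nn ρ (FreeGroup.of b) (Nn ρ (FreeGroup.of c) y)) +
      Nn ρ (FreeGroup.of c) (Nn ρ (FreeGroup.of a) (Nn ρ (FreeGroup.of b) y))) -
      (Nn ρ (FreeGroup.of c) (Nn ρ (FreeGroup.of a) (Nn ρ (FreeGroup.of b) y)) +
      Nn ρ (FreeGroup.of b) (Nn ρ (FreeGroup.of c) (Nn ρ (FreeGroup.of a) y))) +
      (Nn ρ (FreeGroup.of b) (Nn ρ (FreeGroup.of c) (Nn ρ (FreeGroup.of a) y)) +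
      Nn ρ (FreeGroup.of a) (Nn ρ (FreeGroup.of b) (Nn ρ (FreeGroup.of c) y))) := by abel
    rw [this, r1, r2, r3]
    simp

/-- the ascending series of `M` -/
def Xs (ρ : FreeGroup (Fin n) →* End ℂ M) : ℕ → Submodule ℂ M
  | 0 => ⊥
  | m + 1 =>
    { carrier := {v | ∀ w, Nn ρ w v ∈ Xs ρ m}
      add_mem' := by
        intro a b ha hb w
        rw [Nn_add]; exact (Xs ρ m).add_mem (ha w) (hb w)
      zero_mem' := by
        intro w; rw [Nn_zero]; exact (Xs ρ m).zero_mem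
      smul_mem' := by
        intro c a ha w
        have : Nn ρ w (c • a) = c • Nn ρ w a := by simp only [Nn, map_smul, smul_sub]
        rw [this]; exact (Xs ρ m).smul_mem c (ha w) }

theorem mem_Xs_succ {ρ : FreeGroup (Fin n) →* End ℂ M} {m : ℕ} {v : M} :
    v ∈ Xs ρ (m + 1) ↔ ∀ w, Nn ρ w v ∈ Xs ρ m := Iff.rfl

theorem Nn_letters {ρ : FreeGroup (Fin n) →* End ℂ M} (X : Submodule ℂ M)
    (hX : ∀ w, ∀ x ∈ X, ρ w x ∈ X) {v : M} (hv : ∀ a, Nn ρ (FreeGroup.of a) v ∈ X)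
    (w : FreeGroup (Fin n)) : Nn ρ w v ∈ X := by
  induction w using FreeGroup.induction_on with
  | C1 => rw [Nn, map_one]; simp
  | of a => exact hv a
  | inv_of a ha =>
    have : Nn ρ (FreeGroup.of a)⁻¹ v = - ρ (FreeGroup.of a)⁻¹ (Nn ρ (FreeGroup.of a) v) := by
      simp only [Nn, map_sub, inv_app]; abel
    rw [this]
    exact X.neg_mem (hX _ _ ha)
  | mul x y hx hy =>
    have : Nn ρ (x * y) v = ρ x (Nn ρ y v) + Nn ρ x v := by
      simp only [Nn, map_sub, mul_app]; abel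
    rw [this]
    exact X.add_mem (hX _ _ hy) hx

theorem Xs_stable (ρ : FreeGroup (Fin n) →* End ℂ M) (m : ℕ) :
    ∀ w, ∀ x ∈ Xs ρ m, ρ w x ∈ Xs ρ m := by
  induction m with
  | zero =>
    intro w x hx
    have : x = 0 := hx
    rw [this, map_zero]; exact Submodule.zero_mem _
  | succ m ih =>
    intro g x hx w
    have : Nn ρ w (ρ g x) = ρ g (Nn ρ (g⁻¹ * w * g) x) := by
      simp only [Nn, map_sub, mul_app, inv_app']
    rw [this]
    exact ih g _ (hx _)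

/-- `I³ y = 0` -/
theorem Good.cube {ρ : FreeGroup (Fin n) →* End ℂ M} {τ δ : ℂ} (hτ : τ ≠ 0)
    {S : Finset (Fin n)} (hS : S.card + 3 ≤ n) {y : M} (h : Good ρ τ δ S y)
    (u v w : FreeGroup (Fin n)) :
    Nn ρ u (Nn ρ v (Nn ρ w y)) = 0 := by
  have h3 : y ∈ Xs ρ 3 := by
    apply Nn_letters _ (Xs_stable ρ 2)
    intro c
    apply Nn_letters _ (Xs_stable ρ 1)
    intro b
    apply Nn_letters _ (Xs_stable ρ 0)
    intro a
    exact (Submodule.mem_bot ℂ).mpr (h.triple hτ hS a b c)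
  exact (Submodule.mem_bot ℂ).mp (h3 w v u)

end Pool.Agent.H26.CH
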