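import Pool.Agent.H26.CH.Quad0

/-!
# Groups acting nilpotently are solvable; the subgroup generated by the squares
-/

set_option autoImplicit false

namespace Pool.Agent.H26.CH

open Module
open scoped commutatorElement

section Solv

variable {G V : Type*} [Group G] [AddCommGroup V] [Module ℂ V]

/-- the ascending series -/
def XG (θ : G →* End ℂ V) : ℕ → Submodule ℂ V
  | 0 => ⊥
  | m + 1 =>
    { carrier := {v | ∀ g, θ g v - v ∈ XG θ m}
      add_mem' := by
        intro a b ha hb g
        have : θ g (a + b) - (a + b) = (θ g a - a) + (θ g b - b) := by rw [map_add]; abel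
        rw [this]; exact (XG θ m).add_mem (ha g) (hb g)
      zero_mem' := by
        intro g; rw [map_zero, sub_zero]; exact (XG θ m).zero_mem
      smul_mem' := by
        intro c a ha g
        rw [map_smul, ← smul_sub]; exact (XG θ m).smul_mem c (ha g) }

theorem mem_XG_succ {θ : G →* End ℂ V} {m : ℕ} {v : V} :
    v ∈ XG θ (m + 1) ↔ ∀ g, θ g v - v ∈ XG θ m := Iff.rfl

theorem XG_mono (θ : G →* End ℂ V) (m : ℕ) : XG θ m ≤ XG θ (m + 1) := by
  induction m with
  | zero =>
    intro v hv
    have : v = 0 := hv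
    rw [this]; exact Submodule.zero_mem _
  | succ m ih =>
    intro v hv g
    exact ih (hv g)

theorem XG_stable (θ : G →* End ℂ V) (m : ℕ) (g : G) {v : V} (hv : v ∈ XG θ m) :
    θ g v ∈ XG θ m := by
  have h1 := XG_mono θ m hv g
  have := (XG θ m).add_mem h1 hv
  rwa [sub_add_cancel] at this

theorem derived_fix (θ : G →* End ℂ V) (i : ℕ) :
    ∀ g ∈ derivedSeries G i, ∀ v ∈ XG θ (i + 1), θ g v = v := by
  induction i with
  | zero =>
    intro g _ v hv
    exact sub_eq_zero.mp ((Submodule.mem_bot ℂ).mp (hv g))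
  | succ i ih =>
    let S : Subgroup G :=
      { carrier := {g | ∀ v ∈ XG θ (i + 2), θ g v = v}
        mul_mem' := by
          intro a b ha hb v hv
          rw [map_mul, Module.End.mul_apply, hb v hv, ha v hv]
        one_mem' := by
          intro v _; rw [map_one]; rfl
        inv_mem' := by
          intro a ha v hv
          have h1 := congrArg (θ a⁻¹) (ha v hv)
          rw [← Module.End.mul_apply, ← map_mul, inv_mul_cancel, map_one] at h1
          exact h1.symm }
    have hle : derivedSeries G (i + 1) ≤ S := by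
      rw [derivedSeries_succ, Subgroup.commutator_le]
      intro a ha b hb v hv
      have key : ∀ u ∈ XG θ (i + 2), θ a (θ b u) = θ b (θ a u) := by
        intro u hu
        have h1 := ih a ha _ (hu b)
        have h2 := ih b hb _ (hu a)
        rw [map_sub] at h1 h2
        have h3 : θ a (θ b u) = (θ b u - u) + θ a u := by rw [← h1]; abel
        have h4 : θ b (θ a u) = (θ a u - u) + θ b u := by rw [← h2]; abel
        rw [h3, h4]; abel
      have hu : θ (a⁻¹ * b⁻¹) v ∈ XG θ (i + 2) := XG_stable θ _ _ hv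
      have h5 := key _ hu
      rw [← Module.End.mul_apply, ← Module.End.mul_apply, ← Module.End.mul_apply,
        ← Module.End.mul_apply, ← map_mul, ← map_mul, ← map_mul, ← map_mul] at h5
      have e1 : a * b * (a⁻¹ * b⁻¹) = ⁅a, b⁆ := by rw [commutatorElement_def]; group
      have e2 : b * a * (a⁻¹ * b⁻¹) = 1 := by group
      rw [e1, e2, map_one] at h5
      exact h5
    intro g hg v hv
    exact hle hg v hv

theorem solvable_of_XG (θ : G →* End ℂ V) (hinj : ∀ g, θ g = 1 → g = 1) (m : ℕ)
    (h : ∀ v, v ∈ XG θ (m + 1)) : IsSolvable G := by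
  refine ⟨⟨m, ?_⟩⟩
  rw [eq_bot_iff]
  intro g hg
  rw [Subgroup.mem_bot]
  apply hinj
  apply LinearMap.ext
  intro v
  exact derived_fix θ m g hg v (h v)

theorem XG_of_seven (θ : G →* End ℂ V) (h : ∀ g1 g2 g3 g4 g5 g6 g7 : G,
    (θ g1 - 1) * (θ g2 - 1) * (θ g3 - 1) * (θ g4 - 1) * (θ g5 - 1) * (θ g6 - 1) * (θ g7 - 1) = 0)
    (v : V) : v ∈ XG θ 7 := by
  have step : ∀ m v, (∀ g, (θ g - 1) v ∈ XG θ m) → v ∈ XG θ (m + 1) := fun m v h g => h g
  apply step; intro g7
  apply step; intro g6
  apply step; intro g5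
  apply step; intro g4
  apply step; intro g3
  apply step; intro g2
  apply step; intro g1
  have := DFunLike.congr_fun (h g1 g2 g3 g4 g5 g6 g7) v
  simp only [Module.End.mul_apply, LinearMap.zero_apply] at this
  exact (Submodule.mem_bot ℂ).mpr this

end Solv

theorem Nsq_finiteIndex (n : ℕ) : (Nsq n).FiniteIndex := by
  have hsq : ∀ x : FreeGroup (Fin n) ⧸ Nsq n, x * x = 1 := by
    intro x
    obtain ⟨g, rfl⟩ := QuotientGroup.mk'_surjective (Nsq n) x
    rw [← map_mul]
    exact (QuotientGroup.eq_one_iff _).mpr (Subgroup.subset_normalClosure ⟨g, rfl⟩)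
  have hcomm : ∀ x y : FreeGroup (Fin n) ⧸ Nsq n, x * y = y * x := by
    intro x y
    have h1 := hsq (x * y)
    have h2 := hsq x
    have h3 := hsq y
    have e1 : x⁻¹ = x := inv_eq_of_mul_eq_one_left h2
    have e2 : y⁻¹ = y := inv_eq_of_mul_eq_one_left h3
    have e3 : (x * y)⁻¹ = x * y := inv_eq_of_mul_eq_one_left h1
    rw [mul_inv_rev, e1, e2] at e3
    exact e3.symm
  let _ : CommGroup (FreeGroup (Fin n) ⧸ Nsq n) :=
    { (inferInstance : Group (FreeGroup (Fin n) ⧸ Nsq n)) with mul_comm := hcomm }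
  have hfin : Finite (FreeGroup (Fin n) ⧸ Nsq n) := by
    apply CommGroup.finite_of_fg_isMulTorsion
    intro x
    rw [isOfFinOrder_iff_pow_eq_one]
    exact ⟨2, by norm_num, by rw [pow_two]; exact hsq x⟩
  exact Subgroup.finiteIndex_of_finite_quotient

end Pool.Agent.H26.CH
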