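import Mathlib

/-!
# Automorphisms of the free group: transvections, inversions, transpositions
-/

set_option autoImplicit false

namespace Pool.Agent.H26.CH

variable {n : ℕ}

/-- the subgroup generated by the letters different from `j` -/
def Hs (j : Fin n) : Subgroup (FreeGroup (Fin n)) :=
  Subgroup.closure {g | ∃ i, i ≠ j ∧ g = FreeGroup.of i}

theorem of_mem_Hs {i j : Fin n} (h : i ≠ j) : FreeGroup.of i ∈ Hs j :=
  Subgroup.subset_closure ⟨i, h, rfl⟩

/-- the endomorphism `x_j ↦ u x_j w` -/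
def trvHom (j : Fin n) (u w : FreeGroup (Fin n)) : FreeGroup (Fin n) →* FreeGroup (Fin n) :=
  FreeGroup.lift fun i => if i = j then u * FreeGroup.of j * w else FreeGroup.of i

theorem trvHom_self (j : Fin n) (u w : FreeGroup (Fin n)) :
    trvHom j u w (FreeGroup.of j) = u * FreeGroup.of j * w := by
  simp [trvHom]

theorem trvHom_ne {i j : Fin n} (h : i ≠ j) (u w : FreeGroup (Fin n)) :
    trvHom j u w (FreeGroup.of i) = FreeGroup.of i := by
  simp [trvHom, h]

theorem trvHom_fix {j : Fin n} (u w : FreeGroup (Fin n)) {h : FreeGroup (Fin n)} (hh : h ∈ Hs j) :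
    trvHom j u w h = h := by
  unfold Hs at hh
  induction hh using Subgroup.closure_induction with
  | mem x hx =>
    obtain ⟨i, hi, rfl⟩ := hx
    exact trvHom_ne hi u w
  | one => exact map_one _
  | mul x y _ _ hx hy => rw [map_mul, hx, hy]
  | inv x _ hx => rw [map_inv, hx]

/-- the automorphism `x_j ↦ u x_j w`, for `u`, `w` in the subgroup of the other letters -/
def trv (j : Fin n) (u w : FreeGroup (Fin n)) (hu : u ∈ Hs j) (hw : w ∈ Hs j) :
    MulAut (FreeGroup (Fin n)) :=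
  MonoidHom.toMulEquiv (trvHom j u w) (trvHom j u⁻¹ w⁻¹)
    (by
      ext i
      by_cases h : i = j
      · subst h
        simp only [MonoidHom.comp_apply, MonoidHom.id_apply]
        rw [trvHom_self, map_mul, map_mul, trvHom_self, trvHom_fix _ _ hu, trvHom_fix _ _ hw]
        group
      · simp only [MonoidHom.comp_apply, MonoidHom.id_apply]
        rw [trvHom_ne h, trvHom_ne h])
    (by
      ext i
      by_cases h : i = j
      · subst h
        simp only [MonoidHom.comp_apply, MonoidHom.id_apply]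
        rw [trvHom_self, map_mul, map_mul, trvHom_self, map_inv, map_inv, trvHom_fix _ _ hu,
          trvHom_fix _ _ hw]
        group
      · simp only [MonoidHom.comp_apply, MonoidHom.id_apply]
        rw [trvHom_ne h, trvHom_ne h])

theorem trv_self (j : Fin n) (u w : FreeGroup (Fin n)) (hu : u ∈ Hs j) (hw : w ∈ Hs j) :
    trv j u w hu hw (FreeGroup.of j) = u * FreeGroup.of j * w := trvHom_self j u w

theorem trv_ne {i j : Fin n} (h : i ≠ j) (u w : FreeGroup (Fin n)) (hu : u ∈ Hs j)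
    (hw : w ∈ Hs j) : trv j u w hu hw (FreeGroup.of i) = FreeGroup.of i := trvHom_ne h u w

theorem trv_fix {j : Fin n} (u w : FreeGroup (Fin n)) (hu : u ∈ Hs j) (hw : w ∈ Hs j)
    {h : FreeGroup (Fin n)} (hh : h ∈ Hs j) : trv j u w hu hw h = h := trvHom_fix u w hh

/-- `x_p ↦ x_p x_l` -/
def Rt (p l : Fin n) : MulAut (FreeGroup (Fin n)) :=
  if h : l ≠ p then trv p 1 (FreeGroup.of l) (one_mem _) (of_mem_Hs h) else 1

/-- `x_p ↦ x_l x_p` -/
def Lt (p l : Fin n) : MulAut (FreeGroup (Fin n)) :=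
  if h : l ≠ p then trv p (FreeGroup.of l) 1 (of_mem_Hs h) (one_mem _) else 1

theorem Rt_self {p l : Fin n} (h : l ≠ p) :
    Rt p l (FreeGroup.of p) = FreeGroup.of p * FreeGroup.of l := by
  rw [Rt, dif_pos h, trv_self, one_mul]

theorem Rt_ne {p l i : Fin n} (h : l ≠ p) (hi : i ≠ p) :
    Rt p l (FreeGroup.of i) = FreeGroup.of i := by
  rw [Rt, dif_pos h, trv_ne hi]

theorem Lt_self {p l : Fin n} (h : l ≠ p) :
    Lt p l (FreeGroup.of p) = FreeGroup.of l * FreeGroup.of p := by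
  rw [Lt, dif_pos h, trv_self, mul_one]

theorem Lt_ne {p l i : Fin n} (h : l ≠ p) (hi : i ≠ p) :
    Lt p l (FreeGroup.of i) = FreeGroup.of i := by
  rw [Lt, dif_pos h, trv_ne hi]

/-- `x_p ↦ x_p⁻¹` -/
def epsHom (p : Fin n) : FreeGroup (Fin n) →* FreeGroup (Fin n) :=
  FreeGroup.lift fun i => if i = p then (FreeGroup.of p)⁻¹ else FreeGroup.of i

/-- `x_p ↦ x_p⁻¹` as an automorphism -/
def Ep (p : Fin n) : MulAut (FreeGroup (Fin n)) :=
  MonoidHom.toMulEquiv (epsHom p) (epsHom p)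
    (by
      ext i
      by_cases h : i = p
      · subst h; simp [epsHom]
      · simp [epsHom, h])
    (by
      ext i
      by_cases h : i = p
      · subst h; simp [epsHom]
      · simp [epsHom, h])

theorem Ep_self (p : Fin n) : Ep p (FreeGroup.of p) = (FreeGroup.of p)⁻¹ := by
  change epsHom p (FreeGroup.of p) = _
  simp [epsHom]

theorem Ep_ne {p i : Fin n} (h : i ≠ p) : Ep p (FreeGroup.of i) = FreeGroup.of i := by
  change epsHom p (FreeGroup.of i) = _
  simp [epsHom, h]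

/-- the transposition of two letters -/
def Sw (p q : Fin n) : MulAut (FreeGroup (Fin n)) :=
  FreeGroup.freeGroupCongr (Equiv.swap p q)

theorem Sw_of (p q i : Fin n) :
    Sw p q (FreeGroup.of i) = FreeGroup.of (Equiv.swap p q i) := by
  simp [Sw]

theorem aut_ext {σ τ : MulAut (FreeGroup (Fin n))}
    (h : ∀ i, σ (FreeGroup.of i) = τ (FreeGroup.of i)) : σ = τ := by
  have : σ.toMonoidHom = τ.toMonoidHom := by
    ext i
    exact h i
  ext x
  exact DFunLike.congr_fun this x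

theorem Ep_sq (p : Fin n) : Ep p * Ep p = 1 := by
  apply aut_ext
  intro i
  rw [MulAut.mul_apply, MulAut.one_apply]
  by_cases h : i = p
  · subst h
    rw [Ep_self, map_inv, Ep_self, inv_inv]
  · rw [Ep_ne h, Ep_ne h]

theorem Ep_comm (p q : Fin n) : Ep p * Ep q = Ep q * Ep p := by
  apply aut_ext
  intro i
  rw [MulAut.mul_apply, MulAut.mul_apply]
  by_cases hpq : p = q
  · subst hpq; rfl
  by_cases h : i = p
  · subst h
    rw [Ep_ne hpq, Ep_self, map_inv, Ep_ne hpq]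
  · by_cases h' : i = q
    · subst h'
      rw [Ep_self, map_inv, Ep_ne h, Ep_self]
    · rw [Ep_ne h, Ep_ne h', Ep_ne h]

theorem Sw_Ep (p q r : Fin n) : Sw p q * Ep r = Ep (Equiv.swap p q r) * Sw p q := by
  apply aut_ext
  intro i
  rw [MulAut.mul_apply, MulAut.mul_apply, Sw_of]
  by_cases h : i = r
  · subst h
    rw [Ep_self, map_inv, Sw_of, Ep_self]
  · rw [Ep_ne h, Sw_of, Ep_ne]
    intro h'
    exact h ((Equiv.swap p q).injective h')

theorem Ep_Rt_Lt {p l : Fin n} (h : l ≠ p) : Ep p * Rt p l * Ep p * Lt p l = 1 := by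
  apply aut_ext
  intro i
  simp only [MulAut.mul_apply, MulAut.one_apply]
  by_cases hi : i = p
  · subst hi
    rw [Lt_self h, map_mul, Ep_ne h, Ep_self, map_mul, Rt_ne h h, map_inv, Rt_self h, map_mul,
      map_inv, map_mul, Ep_self, Ep_ne h]
    group
  · rw [Lt_ne h hi, Ep_ne hi, Rt_ne h hi, Ep_ne hi]

theorem Ep_Rt_comm {p l q : Fin n} (h : l ≠ p) (hq : q ≠ p) (hl : q ≠ l) :
    Ep q * Rt p l = Rt p l * Ep q := by
  apply aut_ext
  intro i
  simp only [MulAut.mul_apply]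
  by_cases hi : i = p
  · subst hi
    rw [Rt_self h, map_mul, Ep_ne hq.symm, Ep_ne hl.symm, Rt_self h]
  · rw [Rt_ne h hi]
    by_cases hi' : i = q
    · subst hi'
      rw [Ep_self, map_inv, Rt_ne h hi]
    · rw [Ep_ne hi', Rt_ne h hi]

theorem Ep_Rt_inv {p l : Fin n} (h : l ≠ p) : Ep l * Rt p l * Ep l * Rt p l = 1 := by
  apply aut_ext
  intro i
  simp only [MulAut.mul_apply, MulAut.one_apply]
  by_cases hi : i = p
  · subst hi
    rw [Rt_self h, map_mul, Ep_ne h.symm, Ep_self, map_mul, Rt_self h, map_inv, Rt_ne h h,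
      map_mul, map_mul, map_inv, Ep_ne h.symm, Ep_self]
    group
  · rw [Rt_ne h hi]
    by_cases hi' : i = l
    · subst hi'
      rw [Ep_self, map_inv, Rt_ne h hi, map_inv, Ep_self, inv_inv]
    · rw [Ep_ne hi', Rt_ne h hi, Ep_ne hi']

theorem Lt_Rt_comm {p l m : Fin n} (h : l ≠ p) (hm : m ≠ p) :
    Lt p m * Rt p l = Rt p l * Lt p m := by
  apply aut_ext
  intro i
  simp only [MulAut.mul_apply]
  by_cases hi : i = p
  · subst hi
    rw [Rt_self h, Lt_self hm, map_mul, map_mul, Rt_self h, Lt_self hm, Rt_ne h hm, Lt_ne hm h,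
      mul_assoc]
  · rw [Rt_ne h hi, Lt_ne hm hi, Rt_ne h hi]

theorem Rt_Rt {p m l : Fin n} (hmp : m ≠ p) (hlp : l ≠ p) (hlm : l ≠ m) :
    Rt m l * Rt p m = Rt p m * Rt p l * Rt m l := by
  apply aut_ext
  intro i
  simp only [MulAut.mul_apply]
  by_cases hi : i = p
  · subst hi
    rw [Rt_self hmp, map_mul, Rt_ne hlm hmp.symm, Rt_self hlm, Rt_self hlp, map_mul, Rt_self hmp,
      Rt_ne hmp hlp, mul_assoc]
  · rw [Rt_ne hmp hi]
    by_cases hi' : i = m
    · subst hi'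
      rw [Rt_self hlm, map_mul, Rt_ne hlp hi, Rt_ne hlp hlp, map_mul, Rt_ne hmp hi, Rt_ne hmp hlp]
    · rw [Rt_ne hlm hi', Rt_ne hlp hi, Rt_ne hmp hi]

theorem Rt_comm {p q l : Fin n} (hp : l ≠ p) (hq : l ≠ q) :
    Rt p l * Rt q l = Rt q l * Rt p l := by
  apply aut_ext
  intro i
  simp only [MulAut.mul_apply]
  by_cases hpq : p = q
  · subst hpq; rfl
  by_cases hi : i = p
  · subst hi
    rw [Rt_ne hq hpq, Rt_self hp, map_mul, Rt_ne hq hpq, Rt_ne hq hq]
  · rw [Rt_ne hp hi]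
    by_cases hi' : i = q
    · subst hi'
      rw [Rt_self hq, map_mul, Rt_ne hp hi, Rt_ne hp hp]
    · rw [Rt_ne hq hi', Rt_ne hp hi]

theorem Sw_Rt {p q l r : Fin n} (hlr : l ≠ r) (hlp : l ≠ p) (hlq : l ≠ q) :
    Sw p q * Rt r l = Rt (Equiv.swap p q r) l * Sw p q := by
  have hsl : Equiv.swap p q l = l := Equiv.swap_apply_of_ne_of_ne hlp hlq
  have h1 : l ≠ Equiv.swap p q r := by
    intro h
    apply hlr
    apply (Equiv.swap p q).injective
    rw [hsl]; exact h
  apply aut_ext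
  intro i
  simp only [MulAut.mul_apply]
  rw [Sw_of]
  by_cases hi : i = r
  · subst hi
    rw [Rt_self hlr, map_mul, Sw_of, Sw_of, Rt_self h1, hsl]
  · rw [Rt_ne hlr hi, Sw_of, Rt_ne h1]
    intro h'
    exact hi ((Equiv.swap p q).injective h')

/-- the automorphisms fixing the letters `j` and `k` -/
def Fx (j k : Fin n) (σ : MulAut (FreeGroup (Fin n))) : Prop :=
  σ (FreeGroup.of j) = FreeGroup.of j ∧ σ (FreeGroup.of k) = FreeGroup.of k

theorem Fx.mul {j k : Fin n} {σ τ : MulAut (FreeGroup (Fin n))} (hσ : Fx j k σ)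
    (hτ : Fx j k τ) : Fx j k (σ * τ) := by
  constructor
  · rw [MulAut.mul_apply, hτ.1, hσ.1]
  · rw [MulAut.mul_apply, hτ.2, hσ.2]

theorem Fx_one (j k : Fin n) : Fx j k 1 := ⟨rfl, rfl⟩

theorem Fx_Rt {j k p l : Fin n} (h : l ≠ p) (hj : p ≠ j) (hk : p ≠ k) : Fx j k (Rt p l) :=
  ⟨Rt_ne h hj.symm, Rt_ne h hk.symm⟩

theorem Fx_Lt {j k p l : Fin n} (h : l ≠ p) (hj : p ≠ j) (hk : p ≠ k) : Fx j k (Lt p l) :=
  ⟨Lt_ne h hj.symm, Lt_ne h hk.symm⟩

theorem Fx_Ep {j k p : Fin n} (hj : p ≠ j) (hk : p ≠ k) : Fx j k (Ep p) :=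
  ⟨Ep_ne hj.symm, Ep_ne hk.symm⟩

theorem Fx_Sw {j k p q : Fin n} (hpj : p ≠ j) (hpk : p ≠ k) (hqj : q ≠ j) (hqk : q ≠ k) :
    Fx j k (Sw p q) := by
  constructor
  · rw [Sw_of, Equiv.swap_apply_of_ne_of_ne hpj.symm hqj.symm]
  · rw [Sw_of, Equiv.swap_apply_of_ne_of_ne hpk.symm hqk.symm]

end Pool.Agent.H26.CH
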